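import Mathlib

/-!
# Families with few chains, I

`Chn F T`: the chains with at most `T` members in the family `F`.  `Free P F`: the family `F` contains no copy
of the poset `P`.  `Few P`: the families of subsets of `V` without copy of `P` have only few chains.
-/

set_option autoImplicit false

namespace Pool.Agent.H23.SP

open Finset

variable {α : Type} [DecidableEq α]

open Classical in
/-- the chains with at most `T` members in the family `F` -/
noncomputable def Chn (F : Finset (Finset α)) (T : ℕ) : Finset (Finset (Finset α)) :=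
  F.powerset.filter (fun 𝒞 => IsChain (· ⊆ ·) (𝒞 : Set (Finset α)) ∧ 𝒞.card ≤ T)

/-- the family `F` contains no copy of the poset `P` -/
def Free (P : Type) [PartialOrder P] (F : Finset (Finset α)) : Prop :=
  ¬ ∃ f : P ↪o Finset α, ∀ p, f p ∈ F

/-- the families without copy of `P` have few chains -/
def Few (P : Type) [PartialOrder P] : Prop :=
  ∃ C e : ℕ, 1 ≤ C ∧ ∀ (α : Type) [DecidableEq α] (V : Finset α) (F : Finset (Finset α)),
    (∀ v ∈ F, v ⊆ V) → Free P F → ∀ T : ℕ,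
      (Chn F T).card ≤ C ^ V.card * (V.card + 2) ^ ((T + 2) ^ e)

omit [DecidableEq α] in
theorem mem_Chn {F : Finset (Finset α)} {T : ℕ} {𝒞 : Finset (Finset α)} :
    𝒞 ∈ Chn F T ↔ 𝒞 ⊆ F ∧ IsChain (· ⊆ ·) (𝒞 : Set (Finset α)) ∧ 𝒞.card ≤ T := by
  classical
  rw [Chn, mem_filter, mem_powerset]

omit [DecidableEq α] in
theorem Chn_mono {F G : Finset (Finset α)} {T : ℕ} (h : F ⊆ G) : Chn F T ⊆ Chn G T := by
  intro 𝒞 h𝒞
  rw [mem_Chn] at h𝒞 ⊢
  exact ⟨h𝒞.1.trans h, h𝒞.2⟩

omit [DecidableEq α] in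
theorem Free.anti {P : Type} [PartialOrder P] {F G : Finset (Finset α)} (h : F ⊆ G)
    (hG : Free P G) : Free P F := fun ⟨f, hf⟩ => hG ⟨f, fun p => h (hf p)⟩

omit [DecidableEq α] in
theorem Free.of_embedding {P Q : Type} [PartialOrder P] [PartialOrder Q] (e : P ↪o Q)
    {F : Finset (Finset α)} (hF : Free P F) : Free Q F := fun ⟨f, hf⟩ =>
  hF ⟨e.trans f, fun p => hf (e p)⟩

/-- `Few` passes to subposets. -/
theorem Few.of_embedding {P Q : Type} [PartialOrder P] [PartialOrder Q] (e : P ↪o Q)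
    (h : Few Q) : Few P := by
  obtain ⟨C, k, hC, h⟩ := h
  exact ⟨C, k, hC, fun α _ V F hV hF T => h α V F hV (hF.of_embedding e) T⟩

omit [DecidableEq α] in
theorem exists_top {𝒞 : Finset (Finset α)} (h : IsChain (· ⊆ ·) (𝒞 : Set (Finset α)))
    (hne : 𝒞.Nonempty) : ∃ a ∈ 𝒞, ∀ b ∈ 𝒞, b ⊆ a := by
  obtain ⟨a, ha, hmax⟩ := Finset.exists_max_image 𝒞 Finset.card hne
  refine ⟨a, ha, fun b hb => ?_⟩
  rcases h.total hb ha with hba | hab
  · exact hba
  · rw [Finset.eq_of_subset_of_card_le hab (hmax b hb)]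

omit [DecidableEq α] in
theorem exists_bot {𝒞 : Finset (Finset α)} (h : IsChain (· ⊆ ·) (𝒞 : Set (Finset α)))
    (hne : 𝒞.Nonempty) : ∃ a ∈ 𝒞, ∀ b ∈ 𝒞, a ⊆ b := by
  obtain ⟨a, ha, hmin⟩ := Finset.exists_min_image 𝒞 Finset.card hne
  refine ⟨a, ha, fun b hb => ?_⟩
  rcases h.total ha hb with hab | hba
  · exact hab
  · rw [Finset.eq_of_subset_of_card_le hba (hmin b hb)]

theorem card_Chn_le_top (F : Finset (Finset α)) (T B : ℕ)
    (h : ∀ a ∈ F, (Chn (F.filter (fun v => v ⊂ a)) T).card ≤ B) :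
    (Chn F T).card ≤ 1 + F.card * B := by
  classical
  have hsub : Chn F T ⊆ {∅} ∪ F.biUnion (fun a =>
      (Chn (F.filter (fun v => v ⊂ a)) T).image (insert a)) := by
    intro 𝒞 h𝒞
    rw [mem_Chn] at h𝒞
    obtain ⟨h1, h2, h3⟩ := h𝒞
    rcases 𝒞.eq_empty_or_nonempty with rfl | hne
    · exact mem_union_left _ (mem_singleton_self _)
    · obtain ⟨a, ha, hmax⟩ := exists_top h2 hne
      refine mem_union_right _ (mem_biUnion.2 ⟨a, h1 ha, mem_image.2 ⟨𝒞.erase a, ?_, ?_⟩⟩)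
      · rw [mem_Chn]
        refine ⟨fun v hv => ?_, h2.mono ?_, (card_le_card (erase_subset _ _)).trans h3⟩
        · rw [mem_erase] at hv
          exact mem_filter.2 ⟨h1 hv.2, (hmax v hv.2).ssubset_of_ne hv.1⟩
        · exact_mod_cast erase_subset a 𝒞
      · exact insert_erase ha
  refine (card_le_card hsub).trans ((card_union_le _ _).trans ?_)
  rw [card_singleton]
  refine Nat.add_le_add_left (card_biUnion_le.trans ?_) 1
  exact Finset.sum_le_card_nsmul _ _ _ (fun a ha => card_image_le.trans (h a ha))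

theorem card_Chn_le_bot (F : Finset (Finset α)) (T B : ℕ)
    (h : ∀ a ∈ F, (Chn (F.filter (fun v => a ⊂ v)) T).card ≤ B) :
    (Chn F T).card ≤ 1 + F.card * B := by
  classical
  have hsub : Chn F T ⊆ {∅} ∪ F.biUnion (fun a =>
      (Chn (F.filter (fun v => a ⊂ v)) T).image (insert a)) := by
    intro 𝒞 h𝒞
    rw [mem_Chn] at h𝒞
    obtain ⟨h1, h2, h3⟩ := h𝒞
    rcases 𝒞.eq_empty_or_nonempty with rfl | hne
    · exact mem_union_left _ (mem_singleton_self _)
    · obtain ⟨a, ha, hmin⟩ := exists_bot h2 hne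
      refine mem_union_right _ (mem_biUnion.2 ⟨a, h1 ha, mem_image.2 ⟨𝒞.erase a, ?_, ?_⟩⟩)
      · rw [mem_Chn]
        refine ⟨fun v hv => ?_, h2.mono ?_, (card_le_card (erase_subset _ _)).trans h3⟩
        · rw [mem_erase] at hv
          exact mem_filter.2 ⟨h1 hv.2, (hmin v hv.2).ssubset_of_ne (Ne.symm hv.1)⟩
        · exact_mod_cast erase_subset a 𝒞
      · exact insert_erase ha
  refine (card_le_card hsub).trans ((card_union_le _ _).trans ?_)
  rw [card_singleton]
  refine Nat.add_le_add_left (card_biUnion_le.trans ?_) 1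
  exact Finset.sum_le_card_nsmul _ _ _ (fun a ha => card_image_le.trans (h a ha))

omit [DecidableEq α] in
theorem card_family_le {V : Finset α} {F : Finset (Finset α)} (h : ∀ v ∈ F, v ⊆ V) :
    F.card ≤ 2 ^ V.card := by
  rw [← card_powerset]
  exact card_le_card fun v hv => mem_powerset.2 (h v hv)

/-- The bound in an interval. -/
theorem interval_bound {P : Type} [PartialOrder P] {C e : ℕ}
    (h : ∀ (α : Type) [DecidableEq α] (V : Finset α) (F : Finset (Finset α)),
      (∀ v ∈ F, v ⊆ V) → Free P F → ∀ T : ℕ,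
        (Chn F T).card ≤ C ^ V.card * (V.card + 2) ^ ((T + 2) ^ e))
    (a b : Finset α) (F : Finset (Finset α)) (hF : ∀ v ∈ F, a ⊆ v ∧ v ⊆ b) (hP : Free P F)
    (T : ℕ) : (Chn F T).card ≤ C ^ (b \ a).card * ((b \ a).card + 2) ^ ((T + 2) ^ e) := by
  classical
  have hlift : ∀ v ∈ F, v \ a ∪ a = v := fun v hv => sdiff_union_of_subset (hF v hv).1
  refine le_trans ?_ (h α (b \ a) (F.image (fun v => v \ a)) ?_ ?_ T)
  · refine Finset.card_le_card_of_injOn (fun 𝒞 => 𝒞.image (fun v => v \ a)) ?_ ?_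
    · intro 𝒞 h𝒞
      rw [mem_coe, mem_Chn] at h𝒞 ⊢
      refine ⟨Finset.image_subset_image h𝒞.1, ?_, card_image_le.trans h𝒞.2.2⟩
      intro u hu v hv _
      rw [mem_coe, mem_image] at hu hv
      obtain ⟨u', hu', rfl⟩ := hu
      obtain ⟨v', hv', rfl⟩ := hv
      rcases h𝒞.2.1.total hu' hv' with hh | hh
      · exact Or.inl (sdiff_subset_sdiff hh subset_rfl)
      · exact Or.inr (sdiff_subset_sdiff hh subset_rfl)
    · intro 𝒞 h𝒞 𝒟 h𝒟 heq
      rw [mem_coe, mem_Chn] at h𝒞 h𝒟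
      have key : ∀ 𝒞 𝒟 : Finset (Finset α), 𝒞 ⊆ F → 𝒟 ⊆ F →
          𝒞.image (fun v => v \ a) = 𝒟.image (fun v => v \ a) → 𝒞 ⊆ 𝒟 := by
        intro 𝒞 𝒟 h𝒞 h𝒟 heq v hv
        have h1 : v \ a ∈ 𝒟.image (fun v => v \ a) := by
          rw [← heq]
          exact mem_image_of_mem _ hv
        rw [mem_image] at h1
        obtain ⟨w, hw, hwv⟩ := h1
        have : w = v := by
          rw [← hlift w (h𝒟 hw), ← hlift v (h𝒞 hv), hwv]
        rwa [← this]
      exact (key 𝒞 𝒟 h𝒞.1 h𝒟.1 heq).antisymm (key 𝒟 𝒞 h𝒟.1 h𝒞.1 heq.symm)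
  · intro v hv
    rw [mem_image] at hv
    obtain ⟨w, hw, rfl⟩ := hv
    exact sdiff_subset_sdiff (hF w hw).2 subset_rfl
  · rintro ⟨f, hf⟩
    apply hP
    have hf' : ∀ p, f p ∪ a ∈ F ∧ Disjoint (f p) a := by
      intro p
      obtain ⟨w, hw, hwp⟩ := mem_image.1 (hf p)
      rw [← hwp, hlift w hw]
      exact ⟨hw, sdiff_disjoint⟩
    refine ⟨OrderEmbedding.ofMapLEIff (fun p => f p ∪ a) ?_, fun p => (hf' p).1⟩
    intro p q
    constructor
    · intro hpq
      rw [← f.le_iff_le]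
      intro z hz
      have h1 : z ∈ f q ∪ a := hpq (mem_union_left _ hz)
      rw [mem_union] at h1
      rcases h1 with h1 | h1
      · exact h1
      · exact absurd h1 (Finset.disjoint_left.1 (hf' p).2 hz)
    · intro hpq
      exact Finset.union_subset_union (f.le_iff_le.2 hpq) subset_rfl

end Pool.Agent.H23.SP
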