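import Pool.Agent.H23.SP.Basic

/-!
# The class of posets in the statement
-/

set_option autoImplicit false

namespace Pool.Agent.H23.SP

/-- the layers `1`, `k`, `m - 1` of the Boolean lattice `Q_m` -/
abbrev Layers (m k : ℕ) : Type :=
  {s : Finset (Fin m) // s.card = 1 ∨ s.card = k ∨ s.card + 1 = m}

/-- The smallest class of posets which contains the subposets `Layers m k` of the Boolean lattices and is
closed under ordinal sums `P ⊕ₗ Q` (all elements of `P` below all elements of `Q`), disjoint unions `P ⊕ Q`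
(no element of `P` comparable to an element of `Q`) and induced subposets. -/
inductive Decomp : (P : Type) → [PartialOrder P] → Prop
  | layers (m k : ℕ) : 2 ≤ k → k + 2 ≤ m → Decomp (Layers m k)
  | series (P Q : Type) [PartialOrder P] [PartialOrder Q] : Decomp P → Decomp Q → Decomp (P ⊕ₗ Q)
  | parallel (P Q : Type) [PartialOrder P] [PartialOrder Q] : Decomp P → Decomp Q → Decomp (P ⊕ Q)
  | sub (P Q : Type) [PartialOrder P] [PartialOrder Q] : (P ↪o Q) → Decomp Q → Decomp P

/-- `P` contains no copy of the four element poset `N` (`a < c > b < d` and no further relation) -/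
def NFree (P : Type) [PartialOrder P] : Prop :=
  ¬ ∃ a b c d : P, a < c ∧ b < c ∧ b < d ∧ ¬ a ≤ b ∧ ¬ b ≤ a ∧ ¬ a ≤ d ∧ ¬ d ≤ a ∧ ¬ c ≤ d ∧ ¬ d ≤ c

end Pool.Agent.H23.SP
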