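import Pool.Agent.H23.SP.Basic

/-!
# Families with few chains, III: coarse chains

`R` a relation such that `R x y` or `R y x` for all `x ≠ y`.  There are few chains `E` such that for `D' ⊂ D` in `E`
there are no `x ∈ D'`, `y ∉ D` with `R x y`.
-/

set_option autoImplicit false

namespace Pool.Agent.H23.SP

open Finset

variable {α : Type} [DecidableEq α]

/-- no arc of `R` leads from a member to outside of a larger member -/
def Coarse (V : Finset α) (R : α → α → Prop) (E : Finset (Finset α)) : Prop :=
  ∀ D' ∈ E, ∀ D ∈ E, D' ⊂ D → ∀ x ∈ D', ∀ y ∈ V, y ∉ D → ¬ R x y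

theorem card_small_subsets {β : Type} [DecidableEq β] (X : Finset β) (T : ℕ) :
    (X.powerset.filter (fun S => S.card ≤ T)).card ≤ (X.card + 1) ^ T := by
  classical
  induction T with
  | zero =>
    have : X.powerset.filter (fun S => S.card ≤ 0) ⊆ {∅} := by
      intro S hS
      rw [mem_filter] at hS
      rw [mem_singleton]
      exact card_eq_zero.1 (Nat.le_zero.1 hS.2)
    simpa using card_le_card this
  | succ T ih =>
    have hsub : X.powerset.filter (fun S => S.card ≤ T + 1) ⊆
        (X.powerset.filter (fun S => S.card ≤ T)) ∪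
          X.biUnion (fun x => (X.powerset.filter (fun S => S.card ≤ T)).image (insert x)) := by
      intro S hS
      rw [mem_filter, mem_powerset] at hS
      rcases S.eq_empty_or_nonempty with rfl | ⟨x, hx⟩
      · exact mem_union_left _ (mem_filter.2 ⟨by simp, by simp⟩)
      · refine mem_union_right _ (mem_biUnion.2 ⟨x, hS.1 hx, mem_image.2 ⟨S.erase x, ?_,
          insert_erase hx⟩⟩)
        rw [mem_filter, mem_powerset, card_erase_of_mem hx]
        exact ⟨(erase_subset _ _).trans hS.1, by omega⟩
    refine (card_le_card hsub).trans ((card_union_le _ _).trans ?_)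
    have h1 : (X.biUnion (fun x => (X.powerset.filter (fun S => S.card ≤ T)).image
        (insert x))).card ≤ X.card * (X.card + 1) ^ T := by
      refine card_biUnion_le.trans ?_
      exact Finset.sum_le_card_nsmul _ _ _ (fun x _ => card_image_le.trans ih)
    calc _ ≤ (X.card + 1) ^ T + X.card * (X.card + 1) ^ T := Nat.add_le_add ih h1
      _ = (X.card + 1) ^ (T + 1) := by ring

open Classical in
/-- number of arcs starting in `z` -/
noncomputable def deg (V : Finset α) (R : α → α → Prop) (z : α) : ℕ :=
  (V.filter (fun w => w ≠ z ∧ R z w)).card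

/-- number of members containing `z` -/
def kap (E : Finset (Finset α)) (z : α) : ℕ := (E.filter (fun D => z ∈ D)).card

/-- number of sizes larger than the degree -/
noncomputable def jay (V : Finset α) (R : α → α → Prop) (E : Finset (Finset α)) (z : α) : ℕ :=
  ((E.image Finset.card).filter (fun s => deg V R z < s)).card

omit [DecidableEq α] in
theorem chain_card_inj {E : Finset (Finset α)} (h : IsChain (· ⊆ ·) (E : Set (Finset α)))
    {D D' : Finset α} (hD : D ∈ E) (hD' : D' ∈ E) (hc : D.card = D'.card) : D = D' := by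
  rcases h.total hD hD' with h1 | h1
  · exact Finset.eq_of_subset_of_card_le h1 hc.ge
  · exact (Finset.eq_of_subset_of_card_le h1 hc.le).symm

omit [DecidableEq α] in
theorem card_filter_image {E : Finset (Finset α)} (h : IsChain (· ⊆ ·) (E : Set (Finset α)))
    (p : ℕ → Prop) [DecidablePred p] :
    ((E.image Finset.card).filter p).card = (E.filter (fun D => p D.card)).card := by
  classical
  rw [Finset.filter_image]
  refine Finset.card_image_of_injOn ?_
  intro D hD D' hD' hc
  rw [mem_coe, mem_filter] at hD hD'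
  exact chain_card_inj h hD.1 hD'.1 hc

theorem jay_eq {V : Finset α} {R : α → α → Prop} {E : Finset (Finset α)}
    (h : IsChain (· ⊆ ·) (E : Set (Finset α))) (z : α) :
    jay V R E z = (E.filter (fun D => deg V R z < D.card)).card :=
  card_filter_image h _

theorem deg_lt {V : Finset α} {R : α → α → Prop} {E : Finset (Finset α)} (hE : Coarse V R E)
    {D' D : Finset α} (hD' : D' ∈ E) (hD : D ∈ E) (hlt : D' ⊂ D) {z : α} (hz : z ∈ D') :
    deg V R z < D.card := by
  classical
  have hzD : z ∈ D := hlt.subset hz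
  refine lt_of_le_of_lt (card_le_card (?_ : _ ⊆ D.erase z)) ?_
  · intro w hw
    rw [mem_filter] at hw
    rw [mem_erase]
    refine ⟨hw.2.1, ?_⟩
    by_contra hwD
    exact hE D' hD' D hD hlt z hz w hw.1 hwD hw.2.2
  · rw [card_erase_of_mem hzD]
    have : 0 < D.card := card_pos.2 ⟨z, hzD⟩
    omega

theorem le_deg {V : Finset α} {R : α → α → Prop} (hR : ∀ x y, x ≠ y → R x y ∨ R y x)
    {E : Finset (Finset α)} (hEV : ∀ D ∈ E, D ⊆ V) (hE : Coarse V R E)
    {D' D : Finset α} (hD' : D' ∈ E) (hD : D ∈ E) (hlt : D' ⊂ D) {z : α} (hzV : z ∈ V)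
    (hz : z ∉ D) : D'.card ≤ deg V R z := by
  classical
  refine card_le_card fun w hw => ?_
  have hwz : w ≠ z := by
    rintro rfl
    exact hz (hlt.subset hw)
  rw [mem_filter]
  refine ⟨hEV D' hD' hw, hwz, ?_⟩
  rcases hR w z hwz with h | h
  · exact absurd h (hE D' hD' D hD hlt w hw z hzV hz)
  · exact h

theorem kap_le {V : Finset α} {R : α → α → Prop} {E : Finset (Finset α)}
    (hc : IsChain (· ⊆ ·) (E : Set (Finset α))) (hE : Coarse V R E) (z : α) :
    kap E z ≤ jay V R E z + 1 := by
  classical
  rw [jay_eq hc]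
  unfold kap
  rcases (E.filter (fun D => z ∈ D)).eq_empty_or_nonempty with h0 | hne
  · rw [h0]; simp
  have hc' : IsChain (· ⊆ ·) ((E.filter (fun D => z ∈ D) : Finset (Finset α)) : Set (Finset α)) :=
    hc.mono (by exact_mod_cast filter_subset _ E)
  obtain ⟨D0, hD0, hmin⟩ := exists_bot hc' hne
  have hsub : (E.filter (fun D => z ∈ D)).erase D0 ⊆ E.filter (fun D => deg V R z < D.card) := by
    intro D hD
    rw [mem_erase] at hD
    have hDE := mem_filter.1 hD.2
    refine mem_filter.2 ⟨hDE.1, ?_⟩
    have h0 := mem_filter.1 hD0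
    exact deg_lt hE h0.1 hDE.1 ((hmin D hD.2).ssubset_of_ne (Ne.symm hD.1)) h0.2
  have h1 := card_le_card hsub
  rw [card_erase_of_mem hD0] at h1
  omega

theorem jay_le {V : Finset α} {R : α → α → Prop} (hR : ∀ x y, x ≠ y → R x y ∨ R y x)
    {E : Finset (Finset α)} (hEV : ∀ D ∈ E, D ⊆ V)
    (hc : IsChain (· ⊆ ·) (E : Set (Finset α))) (hE : Coarse V R E) {z : α} (hz : z ∈ V) :
    jay V R E z ≤ kap E z + 1 := by
  classical
  rw [jay_eq hc]
  unfold kap
  have hsub : E.filter (fun D => deg V R z < D.card) ⊆
      E.filter (fun D => z ∈ D) ∪ (E.filter (fun D => deg V R z < D.card)).filter (fun D => z ∉ D) := by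
    intro D hD
    by_cases hzD : z ∈ D
    · exact mem_union_left _ (mem_filter.2 ⟨(mem_filter.1 hD).1, hzD⟩)
    · exact mem_union_right _ (mem_filter.2 ⟨hD, hzD⟩)
  refine (card_le_card hsub).trans ((card_union_le _ _).trans (Nat.add_le_add_left ?_ _))
  rw [card_le_one]
  have key : ∀ D₁ D₂ : Finset α, D₁ ∈ E → D₂ ∈ E → deg V R z < D₁.card → z ∉ D₂ → ¬ D₁ ⊂ D₂ := by
    intro D₁ D₂ h1 h2 h3 h4 hlt
    have := le_deg hR hEV hE h1 h2 hlt hz h4
    omega
  intro D₁ h1 D₂ h2
  rw [mem_filter, mem_filter] at h1 h2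
  rcases hc.total h1.1.1 h2.1.1 with h | h
  · by_contra hne
    exact key D₁ D₂ h1.1.1 h2.1.1 h1.1.2 h2.2 (h.ssubset_of_ne hne)
  · by_contra hne
    exact key D₂ D₁ h2.1.1 h1.1.1 h2.1.2 h1.2 (h.ssubset_of_ne (Ne.symm hne))

/-- the members of a chain are determined by the sizes and the numbers `kap` -/
theorem mem_member_iff {E : Finset (Finset α)}
    (hc : IsChain (· ⊆ ·) (E : Set (Finset α))) {D : Finset α} (hD : D ∈ E) (z : α) :
    z ∈ D ↔ ((E.image Finset.card).filter (fun s => D.card < s)).card < kap E z := by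
  classical
  rw [card_filter_image hc]
  unfold kap
  have hlt : ∀ D'' ∈ E, D.card < D''.card → D ⊂ D'' := by
    intro D'' hD'' h
    rcases hc.total hD hD'' with h1 | h1
    · refine h1.ssubset_of_ne ?_
      rintro rfl
      exact lt_irrefl _ h
    · exact absurd (card_le_card h1) (not_le.2 h)
  constructor
  · intro hz
    refine card_lt_card ?_
    rw [Finset.ssubset_iff_of_subset]
    · exact ⟨D, mem_filter.2 ⟨hD, hz⟩, fun h => lt_irrefl _ (mem_filter.1 h).2⟩
    · intro D'' h
      rw [mem_filter] at h
      exact mem_filter.2 ⟨h.1, (hlt D'' h.1 h.2).subset hz⟩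
  · intro h
    by_contra hz
    refine absurd h (not_lt.2 (card_le_card ?_))
    intro D'' h1
    rw [mem_filter] at h1
    refine mem_filter.2 ⟨h1.1, ?_⟩
    rcases hc.total hD h1.1 with h2 | h2
    · refine card_lt_card (h2.ssubset_of_ne ?_)
      rintro rfl
      exact hz h1.2
    · exact absurd (h2 h1.2) hz

open Classical in
/-- There are few coarse chains. -/
theorem card_coarse_le (V : Finset α) (R : α → α → Prop) (hR : ∀ x y, x ≠ y → R x y ∨ R y x)
    (T : ℕ) : ((Chn V.powerset T).filter (Coarse V R)).card ≤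
      3 ^ V.card * (V.card + 2) ^ T := by
  have hcard : (((range (V.card + 1)).powerset.filter (fun S => S.card ≤ T)) ×ˢ
      Fintype.piFinset (fun _ : V => range 3)).card ≤ 3 ^ V.card * (V.card + 2) ^ T := by
    rw [card_product, Fintype.card_piFinset, mul_comm]
    refine Nat.mul_le_mul ?_ ?_
    · simp
    · simpa using card_small_subsets (range (V.card + 1)) T
  refine le_trans (Finset.card_le_card_of_injOn
    (fun E => (E.image Finset.card, fun z : V => kap E z + 1 - jay V R E z)) ?_ ?_) hcard
  · intro E hE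
    rw [mem_coe, mem_filter, mem_Chn] at hE
    obtain ⟨⟨hEV, hc, hT⟩, hco⟩ := hE
    rw [mem_coe, mem_product, mem_filter, mem_powerset, Fintype.mem_piFinset]
    refine ⟨⟨?_, card_image_le.trans hT⟩, fun z => ?_⟩
    · intro s hs
      rw [mem_image] at hs
      obtain ⟨D, hD, rfl⟩ := hs
      rw [mem_range]
      exact Nat.lt_succ_of_le (card_le_card (mem_powerset.1 (hEV hD)))
    · have := kap_le (V := V) (R := R) hc hco (z : α)
      rw [mem_range]
      change kap E z + 1 - jay V R E z < 3
      omega
  · intro E hE E' hE' heq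
    rw [mem_coe, mem_filter, mem_Chn] at hE hE'
    simp only [Prod.mk.injEq] at heq
    obtain ⟨⟨hEV, hc, -⟩, hco⟩ := hE
    obtain ⟨⟨hEV', hc', -⟩, hco'⟩ := hE'
    have hkap : ∀ z ∈ V, kap E z = kap E' z := by
      intro z hz
      have h1 := congrFun heq.2 ⟨z, hz⟩
      simp only at h1
      have h2 := jay_le hR (fun D hD => mem_powerset.1 (hEV hD)) hc hco hz
      have h3 := jay_le hR (fun D hD => mem_powerset.1 (hEV' hD)) hc' hco' hz
      have h4 : jay V R E z = jay V R E' z := by
        unfold jay
        rw [heq.1]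
      omega
    have key : ∀ E E' : Finset (Finset α), E ⊆ V.powerset → E' ⊆ V.powerset →
        IsChain (· ⊆ ·) (E : Set (Finset α)) → IsChain (· ⊆ ·) (E' : Set (Finset α)) →
        E.image Finset.card = E'.image Finset.card → (∀ z ∈ V, kap E z = kap E' z) → E ⊆ E' := by
      intro E E' hEV hEV' hc hc' him hk D hD
      have h1 : D.card ∈ E'.image Finset.card := by
        rw [← him]
        exact mem_image_of_mem _ hD
      obtain ⟨D', hD', hcard⟩ := mem_image.1 h1
      have : D = D' := by
        ext z
        by_cases hz : z ∈ V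
        · rw [mem_member_iff hc hD, mem_member_iff hc' hD', him, hcard, hk z hz]
        · exact ⟨fun h => absurd (mem_powerset.1 (hEV hD) h) hz,
            fun h => absurd (mem_powerset.1 (hEV' hD') h) hz⟩
      rw [this]
      exact hD'
    exact (key E E' hEV hEV' hc hc' heq.1 hkap).antisymm
      (key E' E hEV' hEV hc' hc heq.1.symm (fun z hz => (hkap z hz).symm))

end Pool.Agent.H23.SP
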