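import Pool.Agent.H23.SP.NFree

/-!
# Posets in the class: posets of height two, `Q_4`
-/

set_option autoImplicit false

namespace Pool.Agent.H23.SP

open Finset

/-- **Finite posets of height at most two are in the class.** -/
theorem decomp_of_height_two (P : Type) [Fintype P] [PartialOrder P]
    (h : ∀ x y z : P, x < y → y < z → False) : Decomp P := by
  classical
  rcases isEmpty_or_nonempty P with hP | hP
  · exact decomp_of_subsingleton P (fun x _ => isEmptyElim x)
  set k := Fintype.card P + 2 with hk
  let G := P ⊕ ((P × Fin k) ⊕ Fin 2)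
  set m := Fintype.card G with hm
  have hcP : 1 ≤ Fintype.card P := Fintype.card_pos
  have hkm : k + 2 ≤ m := by
    rw [hm, Fintype.card_sum, Fintype.card_sum, Fintype.card_prod, Fintype.card_fin,
      Fintype.card_fin]
    nlinarith
  let ψ : P → Finset G := fun x => if ∃ w, w < x then
    ((univ.filter (fun y => y ≤ x)).map ⟨Sum.inl, Sum.inl_injective⟩ ∪
      (univ.filter (fun i : Fin k => (i : ℕ) < k - (univ.filter (fun y => y ≤ x)).card)).map
        ⟨fun i => Sum.inr (Sum.inl (x, i)), fun i j hij =>
          (Prod.mk.injEq _ _ _ _ ▸ Sum.inl_injective (Sum.inr_injective hij) : _ ∧ _).2⟩)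
    else {Sum.inl x}
  have hmemψ : ∀ x y : P, (∃ w, w < x) → ((Sum.inl y : G) ∈ ψ x ↔ y ≤ x) := by
    intro x y hx
    simp only [ψ, if_pos hx, mem_union, mem_map, mem_filter, mem_univ, true_and,
      Function.Embedding.coeFn_mk]
    constructor
    · rintro (⟨z, hz, hzy⟩ | ⟨i, _, hi⟩)
      · rw [← Sum.inl_injective hzy]
        exact hz
      · exact absurd hi (by simp)
    · intro hy
      exact Or.inl ⟨y, hy, rfl⟩
  have hcard : ∀ x, (ψ x).card = 1 ∨ (ψ x).card = k := by
    intro x
    by_cases hx : ∃ w, w < x
    · right
      simp only [ψ, if_pos hx]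
      rw [card_union_of_disjoint, card_map, card_map]
      · have h1 : (univ.filter (fun y : P => y ≤ x)).card ≤ Fintype.card P := card_le_univ _
        have h2 : (univ.filter (fun i : Fin k =>
            (i : ℕ) < k - (univ.filter (fun y : P => y ≤ x)).card)).card =
            k - (univ.filter (fun y : P => y ≤ x)).card := by
          rw [Fin.card_filter_val_lt]
          exact min_eq_right (Nat.sub_le _ _)
        rw [h2]
        omega
      · rw [Finset.disjoint_left]
        intro z hz hz'
        rw [mem_map] at hz hz'
        obtain ⟨y, _, rfl⟩ := hz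
        obtain ⟨i, _, hi⟩ := hz'
        simp at hi
    · left
      simp only [ψ, if_neg hx, card_singleton]
  have hψ : ∀ x y : P, ψ x ⊆ ψ y ↔ x ≤ y := by
    intro x y
    by_cases hx : ∃ w, w < x
    · by_cases hy : ∃ w, w < y
      · constructor
        · intro hs
          exact (hmemψ y x hy).1 (hs ((hmemψ x x hx).2 le_rfl))
        · intro hxy
          rcases hxy.lt_or_eq with hlt | rfl
          · obtain ⟨w, hw⟩ := hx
            exact absurd hlt (fun hlt => h w x y hw hlt)
          · exact subset_rfl
      · constructor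
        · intro hs
          exfalso
          obtain ⟨w, hw⟩ := hx
          have h1 : (Sum.inl w : G) ∈ ψ y := hs ((hmemψ x w ⟨w, hw⟩).2 hw.le)
          have h2 : (Sum.inl x : G) ∈ ψ y := hs ((hmemψ x x ⟨w, hw⟩).2 le_rfl)
          simp only [ψ, if_neg hy, mem_singleton] at h1 h2
          rw [Sum.inl_injective h1, Sum.inl_injective h2] at hw
          exact lt_irrefl _ hw
        · intro hxy
          obtain ⟨w, hw⟩ := hx
          exact absurd ⟨w, lt_of_lt_of_le hw hxy⟩ hy
    · have hψx : ψ x = {Sum.inl x} := by simp only [ψ, if_neg hx]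
      rw [hψx, singleton_subset_iff]
      by_cases hy : ∃ w, w < y
      · exact hmemψ y x hy
      · simp only [ψ, if_neg hy, mem_singleton]
        constructor
        · intro h1
          rw [Sum.inl_injective h1]
        · intro hxy
          rcases hxy.lt_or_eq with hlt | rfl
          · exact absurd ⟨x, hlt⟩ hy
          · rfl
  let e : G ≃ Fin m := Fintype.equivFin G
  refine Decomp.sub P (Layers m k) (OrderEmbedding.ofMapLEIff
    (fun x => ⟨(ψ x).map e.toEmbedding, ?_⟩) ?_) (Decomp.layers m k (by omega) hkm)
  · rw [card_map]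
    rcases hcard x with h1 | h1
    · exact Or.inl h1
    · exact Or.inr (Or.inl h1)
  · intro x y
    rw [Subtype.mk_le_mk]
    exact Finset.map_subset_map.trans (hψ x y)

/-- **`Q_4` is in the class.** -/
theorem decomp_Q4 : Decomp (Finset (Fin 4)) := by
  classical
  have hmid : ∀ s : Finset (Fin 4), s ≠ ∅ → s ≠ univ →
      s.card = 1 ∨ s.card = 2 ∨ s.card + 1 = 4 := by
    decide
  refine Decomp.sub _ (Unit ⊕ₗ ((Layers 4 2) ⊕ₗ Unit)) (OrderEmbedding.ofMapLEIff
    (fun s => if h0 : s = ∅ then toLex (Sum.inl ()) else
      if h1 : s = univ then toLex (Sum.inr (toLex (Sum.inr ()))) else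
        toLex (Sum.inr (toLex (Sum.inl ⟨s, hmid s h0 h1⟩)))) ?_)
    (Decomp.series _ _ decomp_unit (Decomp.series _ _ (Decomp.layers 4 2 le_rfl le_rfl)
      decomp_unit))
  intro s t
  by_cases hs0 : s = ∅
  · subst hs0
    simp only [dif_pos, Finset.empty_subset, iff_true]
    by_cases ht0 : t = ∅
    · simp [ht0]
    · by_cases ht1 : t = univ
      · simp only [ht1, dif_pos, univ_eq_empty_iff, dif_neg, not_false_eq_true,
          not_isEmpty_of_nonempty]
        exact Sum.Lex.inl_le_inr _ _
      · simp only [ht0, ht1, dif_neg, not_false_eq_true]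
        exact Sum.Lex.inl_le_inr _ _
  · by_cases hs1 : s = univ
    · subst hs1
      simp only [dif_pos, univ_eq_empty_iff, dif_neg, not_false_eq_true, not_isEmpty_of_nonempty,
        Finset.univ_subset_iff]
      by_cases ht0 : t = ∅
      · subst ht0
        simp only [dif_pos]
        refine ⟨fun h => absurd h Sum.Lex.not_inr_le_inl, fun h => ?_⟩
        exact absurd h (by decide)
      · by_cases ht1 : t = univ
        · subst ht1
          simp [hs0]
        · simp only [ht0, ht1, dif_neg, not_false_eq_true, iff_false]
          rw [Sum.Lex.inr_le_inr_iff]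
          exact Sum.Lex.not_inr_le_inl
    · simp only [hs0, hs1, dif_neg, not_false_eq_true]
      by_cases ht0 : t = ∅
      · subst ht0
        simp only [dif_pos]
        refine ⟨fun h => absurd h Sum.Lex.not_inr_le_inl, fun h => ?_⟩
        exact absurd (Finset.subset_empty.1 h) hs0
      · by_cases ht1 : t = univ
        · subst ht1
          simp only [dif_pos, univ_eq_empty_iff, dif_neg, not_false_eq_true,
            not_isEmpty_of_nonempty, Finset.subset_univ, iff_true]
          rw [Sum.Lex.inr_le_inr_iff]
          exact Sum.Lex.inl_le_inr _ _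
        · simp only [ht0, ht1, dif_neg, not_false_eq_true]
          rw [Sum.Lex.inr_le_inr_iff, Sum.Lex.inl_le_inl_iff]
          exact Iff.rfl

end Pool.Agent.H23.SP
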