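import Pool.Agent.H23.SP.Class
import Pool.Agent.H23.PRam.Embed

/-!
# Families with few chains, VI: the layers `1`, `k`, `m - 1` of `Q_m`
-/

set_option autoImplicit false

namespace Pool.Agent.H23.SP

open Finset Pool.Agent.H23.PRam

variable {α : Type} [DecidableEq α]

/-- a nonempty chain with at most `r + 1` members is the image of a monotone sequence -/
theorem exists_seq {𝒞 : Finset (Finset α)} (h : IsChain (· ⊆ ·) (𝒞 : Set (Finset α)))
    (hne : 𝒞.Nonempty) (r : ℕ) (hr : 𝒞.card ≤ r + 1) :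
    ∃ M : Fin (r + 1) → Finset α, (∀ i, M i ∈ 𝒞) ∧ Monotone M ∧ univ.image M = 𝒞 := by
  classical
  let rk : Finset α → ℕ := fun D => (𝒞.filter (fun D' => D' ⊂ D)).card
  have hrk : ∀ D ∈ 𝒞, ∀ D' ∈ 𝒞, rk D' ≤ rk D → D' ⊆ D := by
    intro D hD D' hD' hle
    rcases h.total hD' hD with h1 | h1
    · exact h1
    · by_contra hne'
      have hlt : D ⊂ D' := h1.ssubset_of_ne (by
        rintro rfl
        exact hne' subset_rfl)
      refine absurd hle (not_le.2 (card_lt_card ?_))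
      rw [Finset.ssubset_iff_of_subset]
      · exact ⟨D, mem_filter.2 ⟨hD, hlt⟩, fun hh => ssubset_irrefl _ (mem_filter.1 hh).2⟩
      · intro w hw
        rw [mem_filter] at hw ⊢
        exact ⟨hw.1, hw.2.trans hlt⟩
  have hex : ∀ i : Fin (r + 1), ∃ a ∈ 𝒞, rk a ≤ i ∧ ∀ b ∈ 𝒞, rk b ≤ i → b ⊆ a := by
    intro i
    obtain ⟨b0, hb0, hbot⟩ := exists_bot h hne
    have h0 : rk b0 = 0 := by
      rw [card_eq_zero, Finset.filter_eq_empty_iff]
      intro w hw hlt
      exact ssubset_irrefl _ (hlt.trans_le (hbot w hw))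
    obtain ⟨a, ha, htop⟩ := exists_top (𝒞 := 𝒞.filter (fun b => rk b ≤ i))
      (h.mono (by exact_mod_cast filter_subset _ _)) ⟨b0, mem_filter.2 ⟨hb0, by omega⟩⟩
    rw [mem_filter] at ha
    exact ⟨a, ha.1, ha.2, fun b hb hbi => htop b (mem_filter.2 ⟨hb, hbi⟩)⟩
  choose M hM hMi hMtop using hex
  refine ⟨M, hM, fun i i' hii => hMtop i' _ (hM i) ((hMi i).trans (by exact_mod_cast hii)), ?_⟩
  ext D
  rw [mem_image]
  constructor
  · rintro ⟨i, _, rfl⟩
    exact hM i
  · intro hD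
    have hlt : rk D < r + 1 := by
      refine lt_of_lt_of_le (card_lt_card ?_) hr
      rw [Finset.ssubset_iff_of_subset (filter_subset _ _)]
      exact ⟨D, hD, fun hh => ssubset_irrefl _ (mem_filter.1 hh).2⟩
    refine ⟨⟨rk D, hlt⟩, mem_univ _, ?_⟩
    exact (hrk D hD _ (hM _) (hMi _)).antisymm (hMtop ⟨rk D, hlt⟩ D hD le_rfl)

theorem card_Chn_le_Chains (F : Finset (Finset α)) (r : ℕ) :
    (Chn F (r + 1)).card ≤ 1 + (Chains (fun _ : Fin (r + 1) => F)).card := by
  classical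
  have hsub : Chn F (r + 1) ⊆ {∅} ∪ (Chains (fun _ : Fin (r + 1) => F)).image
      (fun M => univ.image M) := by
    intro 𝒞 h𝒞
    rw [mem_Chn] at h𝒞
    rcases 𝒞.eq_empty_or_nonempty with rfl | hne
    · exact mem_union_left _ (mem_singleton_self _)
    · obtain ⟨M, hM, hmon, him⟩ := exists_seq h𝒞.2.1 hne r h𝒞.2.2
      refine mem_union_right _ (mem_image.2 ⟨M, mem_Chains.2 ⟨fun i => h𝒞.1 (hM i), hmon⟩, him⟩)
  refine (card_le_card hsub).trans ((card_union_le _ _).trans ?_)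
  rw [card_singleton]
  exact Nat.add_le_add_left card_image_le 1

theorem few_layers (m k : ℕ) (hk : 2 ≤ k) (hkm : k + 2 ≤ m) : Few (Layers m k) := by
  classical
  refine ⟨6, m + 2, by norm_num, ?_⟩
  intro α _ V F hV hF T
  rcases T with _ | r
  · have : (Chn F 0).card ≤ 1 := by
      rw [card_le_one]
      intro 𝒞 h𝒞 𝒟 h𝒟
      rw [mem_Chn] at h𝒞 h𝒟
      rw [card_eq_zero.1 (Nat.le_zero.1 h𝒞.2.2), card_eq_zero.1 (Nat.le_zero.1 h𝒟.2.2)]
    exact this.trans (Nat.mul_pos (by positivity) (by positivity))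
  have hX : ¬ XI (fun _ : Fin (r + 1) => F) m := by
    rintro ⟨b, E, E', B, hE, hE', hB, h1, h2, h3⟩
    apply hF
    have hE1 : ∀ k, E k ∈ F := fun k => (hE k).choose_spec.2
    have hE2 : ∀ k, E' k ∈ F := fun k => (hE' k).choose_spec.2
    obtain ⟨f, hf⟩ := embed_X (α := Layers m k) (fun t => decide (t ∈ F)) m k hk hkm (fun _ => 0)
      Subtype.val (fun _ _ h => absurd h (lt_irrefl 0)) (fun _ _ _ => Iff.rfl) (fun x => x.2) 1
      (fun _ => Nat.one_pos) (fun a => if a = 0 then ∅ else V) (by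
        intro a ha
        have ha0 : a = 0 := by omega
        subst ha0
        refine ⟨by simp, E, E', B, fun k => ⟨by simpa using hE1 k, by simp, by simpa using hV _ (hE1 k)⟩,
          fun k => ⟨by simpa using hE2 k, by simp, by simpa using hV _ (hE2 k)⟩,
          fun S => ⟨by simpa using hB S, by simp, by simpa using hV _ (hB S)⟩, h1, h2, h3⟩)
    exact ⟨f, fun p => by simpa using hf p⟩
  have h := card_chains_le_XI' m V (fun _ : Fin (r + 1) => F) (fun _ u hu => hV u hu) hX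
  set n := V.card with hn
  have hpos : 1 ≤ 6 ^ n * (n + 2) ^ (m * (r * r)) := Nat.mul_pos (by positivity) (by positivity)
  calc (Chn F (r + 1)).card ≤ 1 + (Chains (fun _ : Fin (r + 1) => F)).card := card_Chn_le_Chains F r
    _ ≤ 1 + 6 ^ n * (n + 1) ^ (m * (r * r)) := Nat.add_le_add_left h 1
    _ ≤ 6 ^ n * (n + 2) ^ (m * (r * r)) + 6 ^ n * (n + 2) ^ (m * (r * r)) := by
        refine Nat.add_le_add hpos (Nat.mul_le_mul_left _ (Nat.pow_le_pow_left (by omega) _))
    _ = 2 * (6 ^ n * (n + 2) ^ (m * (r * r))) := by ring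
    _ ≤ (n + 2) * (6 ^ n * (n + 2) ^ (m * (r * r))) := Nat.mul_le_mul_right _ (by omega)
    _ = 6 ^ n * (n + 2) ^ (m * (r * r) + 1) := by rw [pow_succ]; ring
    _ ≤ 6 ^ n * (n + 2) ^ ((r + 1 + 2) ^ (m + 2)) := by
        refine Nat.mul_le_mul_left _ (Nat.pow_le_pow_right (by omega) ?_)
        have e1 : m + 1 ≤ (r + 1 + 2) ^ m :=
          (Nat.lt_two_pow_self (n := m)).trans_le (Nat.pow_le_pow_left (by omega) m)
        have e2 : r * r + 1 ≤ (r + 1 + 2) ^ 2 := by nlinarith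
        calc m * (r * r) + 1 ≤ (m + 1) * (r * r + 1) := by nlinarith
          _ ≤ (r + 1 + 2) ^ m * (r + 1 + 2) ^ 2 := Nat.mul_le_mul e1 e2
          _ = _ := by rw [pow_add]

end Pool.Agent.H23.SP
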