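import Pool.Agent.H23.SP.Layer
import Pool.Agent.H23.PRam.Ramsey

/-!
# Families with few chains, VII: the Ramsey statement
-/

set_option autoImplicit false

namespace Pool.Agent.H23.SP

open Finset Filter Pool.Agent.H23.PRam

theorem card_Chains_le_Chn {α : Type} [DecidableEq α] (F : Finset (Finset α)) (r : ℕ) :
    (Chains (fun _ : Fin (r + 1) => F)).card ≤ (r + 1) ^ (r + 1) * (Chn F (r + 1)).card := by
  classical
  have hsub : Chains (fun _ : Fin (r + 1) => F) ⊆ (Chn F (r + 1)).biUnion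
      (fun 𝒞 => Fintype.piFinset (fun _ : Fin (r + 1) => 𝒞)) := by
    intro M hM
    rw [mem_Chains] at hM
    rw [mem_biUnion]
    refine ⟨univ.image M, mem_Chn.2 ⟨?_, ?_, ?_⟩, ?_⟩
    · intro v hv
      obtain ⟨i, _, rfl⟩ := mem_image.1 hv
      exact hM.1 i
    · intro u hu v hv _
      rw [mem_coe, mem_image] at hu hv
      obtain ⟨i, _, rfl⟩ := hu
      obtain ⟨j, _, rfl⟩ := hv
      rcases le_total i j with h | h
      · exact Or.inl (hM.2 h)
      · exact Or.inr (hM.2 h)
    · refine card_image_le.trans ?_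
      rw [card_univ, Fintype.card_fin]
    · rw [Fintype.mem_piFinset]
      exact fun i => mem_image_of_mem _ (mem_univ i)
  refine (card_le_card hsub).trans (card_biUnion_le.trans ?_)
  rw [mul_comm]
  refine Finset.sum_le_card_nsmul _ _ _ (fun 𝒞 h𝒞 => ?_)
  rw [Fintype.card_piFinset]
  simp only [prod_const, card_univ, Fintype.card_fin]
  exact Nat.pow_le_pow_left (mem_Chn.1 h𝒞).2.2 _

theorem numeric_F (C e : ℕ) (hC : 1 ≤ C) : ∃ K : ℕ, ∀ᶠ n : ℕ in atTop, ∃ k r : ℕ,
    (k : ℝ) ≤ K * n / Real.log n ∧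
    4 ^ (n + k) * ((r + 1) ^ (r + 1) * (C ^ (n + k) * (n + k + 2) ^ ((r + 1 + 2) ^ e))) <
      (r + 2) ^ k := by
  refine ⟨4 * (e + 1) * (2 * C + 8), ?_⟩
  set K : ℕ := 4 * (e + 1) * (2 * C + 8) with hK
  set δ : ℝ := 1 / (2 * (e + 1)) with hδ
  have he0 : (0 : ℝ) ≤ e := Nat.cast_nonneg e
  have hδ0 : 0 < δ := by positivity
  have hδe : δ * e ≤ 1 / 2 := by
    rw [hδ, div_mul_eq_mul_div, one_mul, div_le_div_iff₀ (by positivity) (by norm_num)]
    linarith
  have hδ2 : δ ≤ 1 / 2 := by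
    rw [hδ, div_le_div_iff₀ (by positivity) (by norm_num)]
    linarith
  have hlogt : Tendsto (fun n : ℕ => Real.log n) atTop atTop :=
    Real.tendsto_log_atTop.comp tendsto_natCast_atTop_atTop
  have hlo : ∀ᶠ n : ℕ in atTop, (4:ℝ) * Real.log n ≤ n := by
    have h2 : (fun x : ℝ => Real.log x) =o[atTop] fun x : ℝ => x := Real.isLittleO_log_id_atTop
    have h4 := (h2.comp_tendsto tendsto_natCast_atTop_atTop).def
      (show (0 : ℝ) < 1 / 4 by norm_num)
    filter_upwards [h4, eventually_ge_atTop 1] with n hn hn1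
    simp only [Function.comp] at hn
    have hn0 : (1 : ℝ) ≤ n := by exact_mod_cast hn1
    rw [Real.norm_of_nonneg (Real.log_nonneg hn0), Real.norm_of_nonneg (by linarith)] at hn
    linarith
  have hpow : ∀ᶠ n : ℕ in atTop, (2 : ℝ) ≤ (n : ℝ) ^ (δ / 2) :=
    ((tendsto_rpow_atTop (by positivity : 0 < δ / 2)).comp
      tendsto_natCast_atTop_atTop).eventually_ge_atTop 2
  filter_upwards [hlogt.eventually_ge_atTop (K : ℝ), eventually_sqrt_log 2 (by norm_num),
    eventually_ge_atTop 4, hlo, hpow, hlogt.eventually_ge_atTop 1]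
    with n hK' hsq hn4 hlo hpow hlog1
  have hn0 : (4 : ℝ) ≤ n := by exact_mod_cast hn4
  have hlogpos : 0 < Real.log n := by linarith
  set k := ⌊(K : ℝ) * (n : ℝ) / Real.log n⌋₊ with hk
  have hkle : (k : ℝ) ≤ K * n / Real.log n := by
    rw [hk]; exact Nat.floor_le (by positivity)
  have hkge : K * n / Real.log n - 1 < (k : ℝ) := by
    rw [hk]; exact Nat.sub_one_lt_floor _
  have hkn : (k : ℝ) ≤ n := by
    refine hkle.trans ?_
    rw [div_le_iff₀ hlogpos]
    nlinarith
  -- the number `r`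
  set y : ℝ := (n : ℝ) ^ (δ / 2) with hy
  have hyy : (n : ℝ) ^ δ = y * y := by
    rw [hy, ← Real.rpow_add (by linarith)]
    congr 1
    ring
  set q := ⌊(n : ℝ) ^ δ⌋₊ with hq
  have hqle : (q : ℝ) ≤ (n : ℝ) ^ δ := Nat.floor_le (by positivity)
  have hqge : (n : ℝ) ^ δ - 1 < q := Nat.sub_one_lt_floor _
  have hq3 : 3 ≤ q := by
    have : (2 : ℝ) < q := by
      rw [hyy] at hqge
      nlinarith
    have h2 : 2 < q := by exact_mod_cast this
    omega
  obtain ⟨r, hr⟩ : ∃ r, q = r + 3 := ⟨q - 3, by omega⟩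
  have hr2 : y ≤ (r : ℝ) + 2 := by
    have : (q : ℝ) = r + 3 := by rw [hr]; push_cast; ring
    rw [hyy] at hqge
    nlinarith
  have hsqrt : Real.sqrt n = (n : ℝ) ^ (1 / 2 : ℝ) := Real.sqrt_eq_rpow _
  have hn1 : (1 : ℝ) ≤ n := by linarith
  have hqs : (q : ℝ) ≤ Real.sqrt n := by
    refine hqle.trans ?_
    rw [hsqrt]
    exact Real.rpow_le_rpow_of_exponent_le hn1 hδ2
  have hqe : (q : ℝ) ^ e ≤ Real.sqrt n := by
    calc (q : ℝ) ^ e ≤ ((n : ℝ) ^ δ) ^ e := pow_le_pow_left₀ (Nat.cast_nonneg _) hqle e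
      _ = (n : ℝ) ^ (δ * e) := by rw [Real.rpow_mul_natCast (by linarith)]
      _ ≤ Real.sqrt n := by
        rw [hsqrt]
        exact Real.rpow_le_rpow_of_exponent_le hn1 hδe
  refine ⟨k, r, hkle, ?_⟩
  have hlogy : Real.log y = δ / 2 * Real.log n := by
    rw [hy, Real.log_rpow (by linarith)]
  have hlogr : δ / 2 * Real.log n ≤ Real.log ((r : ℝ) + 2) := by
    rw [← hlogy]
    exact Real.log_le_log (by linarith) hr2
  have hlog4 : Real.log 4 ≤ 2 := by
    rw [show (4 : ℝ) = 2 ^ (2 : ℕ) by norm_num, Real.log_pow]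
    have := Real.log_two_lt_d9
    push_cast
    linarith
  have hC1 : (1 : ℝ) ≤ C := by exact_mod_cast hC
  have hlogC : Real.log C ≤ C := (Real.log_le_sub_one_of_pos (by linarith)).trans (by linarith)
  have hlogC0 : 0 ≤ Real.log C := Real.log_nonneg hC1
  have hlogN : Real.log ((n : ℝ) + k + 2) ≤ Real.log (4 * n) :=
    Real.log_le_log (by positivity) (by linarith)
  have hlogN0 : 0 ≤ Real.log ((n : ℝ) + k + 2) := by
    refine Real.log_nonneg ?_
    have : (0 : ℝ) ≤ k := Nat.cast_nonneg k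
    linarith
  have hrle : (r : ℝ) + 1 ≤ Real.sqrt n := by
    have : (q : ℝ) = r + 3 := by rw [hr]; push_cast; ring
    linarith
  have hs0 : 0 ≤ Real.sqrt n := Real.sqrt_nonneg _
  have hsn : Real.sqrt n ≤ n := by
    rw [Real.sqrt_le_left (by linarith)]
    nlinarith
  have hr0 : (0 : ℝ) ≤ r := Nat.cast_nonneg r
  have hk0 : (0 : ℝ) ≤ k := Nat.cast_nonneg k
  have hmain : ((n : ℝ) + k) * Real.log 4 + (((r : ℝ) + 1) * Real.log ((r : ℝ) + 1) +
      (((n : ℝ) + k) * Real.log C + ((r : ℝ) + 1 + 2) ^ e * Real.log ((n : ℝ) + k + 2))) <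
      k * Real.log ((r : ℝ) + 2) := by
    have e1 : ((n : ℝ) + k) * Real.log 4 ≤ (2 * n) * 2 := by
      apply mul_le_mul (by linarith) hlog4 (Real.log_nonneg (by norm_num)) (by linarith)
    have e2 : ((n : ℝ) + k) * Real.log C ≤ (2 * n) * C := by
      apply mul_le_mul (by linarith) hlogC hlogC0 (by linarith)
    have e3 : ((r : ℝ) + 1) * Real.log ((r : ℝ) + 1) ≤ Real.sqrt n * Real.log (4 * n) := by
      apply mul_le_mul hrle (Real.log_le_log (by linarith) (by linarith))
        (Real.log_nonneg (by linarith)) hs0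
    have e4 : ((r : ℝ) + 1 + 2) ^ e * Real.log ((n : ℝ) + k + 2) ≤
        Real.sqrt n * Real.log (4 * n) := by
      apply mul_le_mul ?_ hlogN hlogN0 hs0
      have : (r : ℝ) + 1 + 2 = q := by rw [hr]; push_cast; ring
      rw [this]
      exact hqe
    have e5 : (K * n / Real.log n - 1) * (δ / 2 * Real.log n) ≤ k * Real.log ((r : ℝ) + 2) := by
      apply mul_le_mul hkge.le hlogr (by positivity) hk0
    have e6 : (K * n / Real.log n - 1) * (δ / 2 * Real.log n) =
        (2 * C + 8) * n - δ / 2 * Real.log n := by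
      rw [hK, hδ]
      push_cast
      field_simp
      ring
    rw [e6] at e5
    have e7 : δ / 2 * Real.log n ≤ n := by nlinarith
    nlinarith
  have hlogs : Real.log ((4 : ℝ) ^ (n + k) * (((r : ℝ) + 1) ^ (r + 1) * ((C : ℝ) ^ (n + k) *
      ((n : ℝ) + k + 2) ^ ((r + 1 + 2) ^ e)))) < Real.log (((r : ℝ) + 2) ^ k) := by
    have hp : (0 : ℝ) < (n : ℝ) + k + 2 := by positivity
    have hCp : (0 : ℝ) < C := by linarith
    rw [Real.log_mul (by positivity) (by positivity), Real.log_mul (by positivity) (by positivity),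
      Real.log_mul (by positivity) (by positivity), Real.log_pow, Real.log_pow, Real.log_pow,
      Real.log_pow, Real.log_pow]
    push_cast
    exact hmain
  have hCp : (0 : ℝ) < C := by linarith
  have hfin := (Real.log_lt_log_iff (by positivity) (by positivity)).1 hlogs
  exact_mod_cast hfin

/-- If the families without copy of `P` have few chains, then `R(P, Q_n) ≤ n + O(n / log n)`. -/
theorem Few.upperModest {P : Type} [PartialOrder P] (hP : Few P) : UpperModest P := by
  classical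
  obtain ⟨C, e, hC, hP⟩ := hP
  obtain ⟨K, hK⟩ := numeric_F C e hC
  refine ⟨K + 1, by positivity, ?_⟩
  filter_upwards [hK, eventually_ge_atTop 2] with n hn hn2 N hN c
  obtain ⟨k, r, hk, hcount⟩ := hn
  have hnn : (2 : ℝ) ≤ n := by exact_mod_cast hn2
  have hlog : 0 < Real.log n := Real.log_pos (by linarith)
  have hle : n + 1 * k ≤ N := by
    have h1 : (K : ℝ) * n / Real.log n ≤ (K + 1) * n / Real.log n := by
      gcongr
      linarith
    have : ((n + 1 * k : ℕ) : ℝ) ≤ N := by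
      push_cast
      linarith
    exact_mod_cast this
  by_contra hcon
  rw [not_or] at hcon
  obtain ⟨hb, hr⟩ := hcon
  set c' : Finset (Fin (n + 1 * k)) → Bool := fun t => c (t.map (Fin.castLEEmb hle)) with hc'
  have hΛ : ∀ A D : Finset (Fin (n + 1 * k)), c' A = true → c' D = true → ¬ False →
      (Chains (fun _ : Fin (r + 1) => (univ : Finset (Finset (Fin (n + 1 * k)))).filter
        (fun t => c' t = true ∧ A ⊆ t ∧ t ⊆ D))).card ≤
      (r + 1) ^ (r + 1) * (C ^ (n + k) * (n + k + 2) ^ ((r + 1 + 2) ^ e)) := by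
    intro A D _ _ _
    refine (card_Chains_le_Chn _ r).trans (Nat.mul_le_mul_left _ ?_)
    refine (hP (Fin (n + 1 * k)) univ _ (fun v _ => subset_univ v) ?_ (r + 1)).trans (le_of_eq ?_)
    · rintro ⟨f, hf⟩
      apply hb
      exact ⟨f.trans (Finset.mapEmbedding (Fin.castLEEmb hle)), fun x => (mem_filter.1 (hf x)).2.1⟩
    · rw [Finset.card_univ, Fintype.card_fin, one_mul]
  rcases block_count n k 1 r ((r + 1) ^ (r + 1) * (C ^ (n + k) * (n + k + 2) ^ ((r + 1 + 2) ^ e))) c'
    (fun hred => hr (red_mono hle c hred)) (fun _ _ => False) hΛ with h | h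
  · obtain ⟨D, _, hD⟩ := h
    exact (hD 0 Nat.one_pos).2
  · rw [one_mul, one_mul] at h
    exact absurd hcount (not_lt.2 h)

end Pool.Agent.H23.SP
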