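import Pool.Agent.H23.SP.Parallel

/-!
# Families with few chains, V: disjoint unions, the count
-/

set_option autoImplicit false

namespace Pool.Agent.H23.SP

open Finset

variable {α : Type} [DecidableEq α]

open Classical in
/-- the possible portions below `D` -/
noncomputable def Opt (V : Finset α) (F : Finset (Finset α)) (R : α → α → Prop) (T : ℕ)
    (E : Finset (Finset α)) (D : Finset α) : Finset (Finset (Finset α)) :=
  {{D}} ∪ ((V ×ˢ V).filter (fun p => R p.1 p.2)).biUnion (fun p =>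
    Chn ((Bxy F p.1 p.2).filter (fun v => below E D ⊆ v ∧ v ⊆ D)) T)

theorem portion_mem_Opt {V : Finset α} {F : Finset (Finset α)} {R : α → α → Prop} {T : ℕ}
    {𝒞 E : Finset (Finset α)} (h𝒞 : 𝒞 ∈ Chn F T) (h : IsCut V R 𝒞 E) {D : Finset α}
    (hD : D ∈ E) : portion 𝒞 E D ∈ Opt V F R T E D := by
  classical
  rw [mem_Chn] at h𝒞
  rw [Opt, mem_union, mem_singleton]
  rcases h.port D hD with h1 | ⟨x, hx, y, hy, hR, h1⟩
  · exact Or.inl h1
  · refine Or.inr (mem_biUnion.2 ⟨(x, y), mem_filter.2 ⟨mem_product.2 ⟨hx, hy⟩, hR⟩, ?_⟩)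
    rw [mem_Chn]
    refine ⟨fun M hM => ?_, h𝒞.2.1.mono (by exact_mod_cast filter_subset _ _),
      (card_le_card (filter_subset _ _)).trans h𝒞.2.2⟩
    have hM' := hM
    rw [portion, mem_filter] at hM'
    rw [mem_filter, Bxy, mem_filter]
    refine ⟨⟨h𝒞.1 hM'.1, h1 M hM⟩, ?_, hM'.2.1⟩
    unfold below
    refine Finset.sup_le fun D' hD' => ?_
    rw [mem_filter] at hD'
    exact (hM'.2.2 D' hD'.1 hD'.2).subset

theorem card_Opt_le {P : Type} [PartialOrder P] {C e : ℕ} (hC : 1 ≤ C)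
    (h : ∀ (α : Type) [DecidableEq α] (V : Finset α) (F : Finset (Finset α)),
      (∀ v ∈ F, v ⊆ V) → Free P F → ∀ T : ℕ,
        (Chn F T).card ≤ C ^ V.card * (V.card + 2) ^ ((T + 2) ^ e))
    (V : Finset α) (F : Finset (Finset α)) (T : ℕ)
    (E : Finset (Finset α)) (D : Finset α) (hD : D ⊆ V) :
    (Opt V F (fun x y => Free P (Bxy F x y)) T E D).card ≤
      C ^ (D \ below E D).card * (V.card + 2) ^ ((T + 2) ^ e + 2) := by
  classical
  set Y := C ^ (D \ below E D).card * (V.card + 2) ^ ((T + 2) ^ e) with hY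
  have hY1 : 1 ≤ Y := Nat.mul_pos (pow_pos hC _) (pow_pos (by omega) _)
  have h1 : (((V ×ˢ V).filter (fun p => Free P (Bxy F p.1 p.2))).biUnion (fun p =>
      Chn ((Bxy F p.1 p.2).filter (fun v => below E D ⊆ v ∧ v ⊆ D)) T)).card ≤
      (V.card * V.card) * Y := by
    refine card_biUnion_le.trans ((Finset.sum_le_card_nsmul _ _ Y (fun p hp => ?_)).trans ?_)
    · refine (interval_bound h (below E D) D _ (fun v hv => (mem_filter.1 hv).2)
        ((mem_filter.1 hp).2.anti (filter_subset _ _)) T).trans ?_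
      rw [hY]
      have : (D \ below E D).card ≤ V.card := card_le_card (sdiff_subset.trans hD)
      gcongr
    · rw [smul_eq_mul, ← card_product]
      exact Nat.mul_le_mul_right _ (card_le_card (filter_subset _ _))
  unfold Opt
  refine (card_union_le _ _).trans ?_
  rw [card_singleton]
  calc _ ≤ 1 + (V.card * V.card) * Y := Nat.add_le_add_left h1 1
    _ ≤ Y + (V.card * V.card) * Y := Nat.add_le_add_right hY1 _
    _ ≤ (V.card + 2) ^ 2 * Y := by
        have : 1 + V.card * V.card ≤ (V.card + 2) ^ 2 := by nlinarith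
        calc Y + V.card * V.card * Y = (1 + V.card * V.card) * Y := by ring
          _ ≤ _ := Nat.mul_le_mul_right _ this
    _ = _ := by rw [hY, pow_add]; ring

theorem Few.double {P : Type} [PartialOrder P] (hP : Few P) : Few (P ⊕ P) := by
  classical
  obtain ⟨C, e, hC, hP⟩ := hP
  refine ⟨3 * C, e + 3, by omega, ?_⟩
  intro α _ V F hV hF T
  let R : α → α → Prop := fun x y => Free P (Bxy F x y)
  have hR : ∀ x y, x ≠ y → R x y ∨ R y x := fun x y _ => semi hF x y
  set n := V.card with hn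
  set X := (T + 2) ^ e with hX
  -- the chains with a given set of cuts
  have hfix : ∀ E ∈ (Chn V.powerset T).filter (Coarse V R),
      ((Chn F T).filter (fun 𝒞 => IsCut V R 𝒞 E)).card ≤ C ^ n * (n + 2) ^ ((X + 2) * T) := by
    intro E hE
    rw [mem_filter, mem_Chn] at hE
    obtain ⟨⟨hEV, hcE, hET⟩, -⟩ := hE
    have hEV' : ∀ D ∈ E, D ⊆ V := fun D hD => mem_powerset.1 (hEV hD)
    have h1 : ((Chn F T).filter (fun 𝒞 => IsCut V R 𝒞 E)).card ≤
        (E.pi (fun D => Opt V F R T E D)).card := by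
      refine Finset.card_le_card_of_injOn (fun 𝒞 => fun D _ => portion 𝒞 E D) ?_ ?_
      · intro 𝒞 h𝒞
        rw [mem_coe, mem_filter] at h𝒞
        rw [mem_coe, Finset.mem_pi]
        exact fun D hD => portion_mem_Opt h𝒞.1 h𝒞.2 hD
      · intro 𝒞 h𝒞 𝒟 h𝒟 heq
        rw [mem_coe, mem_filter] at h𝒞 h𝒟
        rw [← biUnion_portion (mem_Chn.1 h𝒞.1).2.1 h𝒞.2,
          ← biUnion_portion (mem_Chn.1 h𝒟.1).2.1 h𝒟.2]
        refine Finset.biUnion_congr rfl (fun D hD => ?_)
        exact congrFun (congrFun heq D) hD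
    refine h1.trans ?_
    rw [Finset.card_pi]
    refine (Finset.prod_le_prod' (fun D hD => card_Opt_le hC hP V F T E D (hEV' D hD))).trans ?_
    rw [Finset.prod_mul_distrib, Finset.prod_pow_eq_pow_sum, Finset.prod_const, ← pow_mul]
    refine Nat.mul_le_mul (Nat.pow_le_pow_right hC (sum_card_sdiff_le hEV' hcE)) ?_
    exact Nat.pow_le_pow_right (by omega) (Nat.mul_le_mul_left _ hET)
  have hsub : Chn F T ⊆ ((Chn V.powerset T).filter (Coarse V R)).biUnion
      (fun E => (Chn F T).filter (fun 𝒞 => IsCut V R 𝒞 E)) := by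
    intro 𝒞 h𝒞
    have h𝒞' := mem_Chn.1 h𝒞
    obtain ⟨E, hE⟩ := exists_cut V R 𝒞.card 𝒞 rfl (fun v hv => hV v (h𝒞'.1 hv)) h𝒞'.2.1
    rw [mem_biUnion]
    refine ⟨E, mem_filter.2 ⟨mem_Chn.2 ⟨fun D hD => mem_powerset.2 (hV D (h𝒞'.1 (hE.sub hD))),
      h𝒞'.2.1.mono (by exact_mod_cast hE.sub), (card_le_card hE.sub).trans h𝒞'.2.2⟩, hE.coarse⟩,
      mem_filter.2 ⟨h𝒞, hE⟩⟩
  have hX1 : 1 ≤ X := Nat.one_le_pow _ _ (by omega)
  calc (Chn F T).card
      ≤ ((Chn V.powerset T).filter (Coarse V R)).card * (C ^ n * (n + 2) ^ ((X + 2) * T)) :=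
        (card_le_card hsub).trans (card_biUnion_le.trans (Finset.sum_le_card_nsmul _ _ _ hfix))
    _ ≤ (3 ^ n * (n + 2) ^ T) * (C ^ n * (n + 2) ^ ((X + 2) * T)) :=
        Nat.mul_le_mul_right _ (card_coarse_le V R hR T)
    _ = (3 * C) ^ n * (n + 2) ^ (T + (X + 2) * T) := by rw [mul_pow, pow_add]; ring
    _ ≤ (3 * C) ^ n * (n + 2) ^ ((T + 2) ^ (e + 3)) := by
        refine Nat.mul_le_mul_left _ (Nat.pow_le_pow_right (by omega) ?_)
        have e4 : 2 ^ 2 ≤ (T + 2) ^ 2 := Nat.pow_le_pow_left (by omega) 2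
        calc T + (X + 2) * T = T * (X + 3) := by ring
          _ ≤ (T + 2) * (4 * X) := Nat.mul_le_mul (by omega) (by omega)
          _ ≤ (T + 2) * ((T + 2) ^ 2 * X) := Nat.mul_le_mul_left _ (Nat.mul_le_mul_right _ (by omega))
          _ = _ := by rw [hX]; ring

/-- **Disjoint unions.** -/
theorem Few.parallel {P Q : Type} [PartialOrder P] [PartialOrder Q] (hP : Few P) (hQ : Few Q) :
    Few (P ⊕ Q) := by
  refine Few.of_embedding (Q := (P ⊕ₗ Q) ⊕ (P ⊕ₗ Q)) ?_ (hP.series hQ).double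
  refine OrderEmbedding.ofMapLEIff
    (Sum.elim (fun p => Sum.inl (toLex (Sum.inl p))) (fun q => Sum.inr (toLex (Sum.inr q)))) ?_
  rintro (p | q) (p' | q')
  · simp only [Sum.elim_inl, Sum.inl_le_inl_iff]
    exact Sum.Lex.inl_le_inl_iff
  · simp
  · simp
  · simp only [Sum.elim_inr, Sum.inr_le_inr_iff]
    exact Sum.Lex.inr_le_inr_iff

end Pool.Agent.H23.SP
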