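import Pool.Agent.H23.SP.OrdSum
import Pool.Agent.H23.SP.Parallel2
import Pool.Agent.H23.SP.Modest

/-!
# The main theorem
-/

set_option autoImplicit false

namespace Pool.Agent.H23.SP

open Pool.Agent.H23.PRam

theorem few_of_decomp (P : Type) [PartialOrder P] (h : Decomp P) : Few P := by
  induction h with
  | layers m k hk hkm => exact few_layers m k hk hkm
  | series P Q _ _ hP hQ => exact hP.series hQ
  | parallel P Q _ _ hP hQ => exact hP.parallel hQ
  | sub P Q e _ h => exact Few.of_embedding e h

theorem modest_of_decomp (P : Type) [PartialOrder P] (h : Decomp P) : UpperModest P :=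
  (few_of_decomp P h).upperModest

end Pool.Agent.H23.SP
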