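import Pool.Agent.H23.SP.Class

/-!
# Posets in the class: posets without `N`, posets of height two, `Q_4`
-/

set_option autoImplicit false

namespace Pool.Agent.H23.SP

open Finset

/-- no path with four vertices -/
def P4Free {β : Type} (S : Finset β) (r : β → β → Prop) : Prop :=
  ¬ ∃ w ∈ S, ∃ u ∈ S, ∃ v ∈ S, ∃ z ∈ S, r w u ∧ r u v ∧ r v z ∧ ¬ r w v ∧ ¬ r w z ∧ ¬ r u z

/-- `S` splits into two parts without `r`-edge between them -/
def Sep {β : Type} [DecidableEq β] (S : Finset β) (r : β → β → Prop) : Prop :=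
  ∃ A ⊆ S, A.Nonempty ∧ (S \ A).Nonempty ∧ ∀ a ∈ A, ∀ b ∈ S \ A, ¬ r a b

theorem Sep.symm_side {β : Type} [DecidableEq β] {S : Finset β} {r : β → β → Prop}
    (hr : ∀ a b, r a b → r b a) {A : Finset β} (hA : A ⊆ S) (h : ∀ a ∈ A, ∀ b ∈ S \ A, ¬ r a b) :
    ∀ a ∈ S \ A, ∀ b ∈ S \ (S \ A), ¬ r a b := by
  intro a ha b hb hab
  rw [Finset.sdiff_sdiff_eq_self hA] at hb
  exact h b hb a ha (hr _ _ hab)

/-- adding a vertex to a disconnected graph -/
theorem key_step {β : Type} [DecidableEq β] (S : Finset β) (v : β) (hv : v ∉ S)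
    (r : β → β → Prop) (hr : ∀ a b, r a b → r b a) (h4 : P4Free (insert v S) r) (hS : Sep S r) :
    Sep (insert v S) r ∨ Sep (insert v S) (fun a b => a ≠ b ∧ ¬ r a b) := by
  classical
  obtain ⟨A, hAS, hAne, hAne', hA⟩ := hS
  by_contra hcon
  rw [not_or] at hcon
  obtain ⟨h1, h2⟩ := hcon
  -- some vertex is not adjacent to `v`
  have hW : ∃ w ∈ S, ¬ r w v := by
    by_contra hall
    push Not at hall
    apply h2
    refine ⟨{v}, by simp, by simp, ?_, ?_⟩
    · obtain ⟨a, ha⟩ := hAne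
      refine ⟨a, mem_sdiff.2 ⟨mem_insert_of_mem (hAS ha), ?_⟩⟩
      rw [mem_singleton]
      rintro rfl
      exact hv (hAS ha)
    · intro a ha b hb hab
      rw [mem_singleton] at ha
      subst ha
      rw [mem_sdiff, mem_insert, mem_singleton] at hb
      exact hab.2 (hr _ _ (hall b (hb.1.resolve_left hb.2)))
  -- a set of non-neighbours of `v` which is separated from the rest of `S`
  have hnosep : ∀ B ⊆ S, B.Nonempty → (∀ a ∈ B, ¬ r a v) → ¬ ∀ a ∈ B, ∀ b ∈ S \ B, ¬ r a b := by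
    intro B hB hBne hBv hBS
    apply h1
    refine ⟨B, hB.trans (subset_insert _ _), hBne,
      ⟨v, mem_sdiff.2 ⟨mem_insert_self _ _, fun h => hv (hB h)⟩⟩, ?_⟩
    intro a ha b hb
    rw [mem_sdiff, mem_insert] at hb
    rcases hb.1 with rfl | hbS
    · exact hBv a ha
    · exact hBS a ha b (mem_sdiff.2 ⟨hbS, hb.2⟩)
  obtain ⟨w₀, hw₀, hw₀v⟩ := hW
  -- an edge between a non-neighbour and a neighbour
  have hedge : ∃ w ∈ S, ∃ u ∈ S, ¬ r w v ∧ r u v ∧ r w u := by
    have := hnosep (S.filter (fun w => ¬ r w v)) (filter_subset _ _)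
      ⟨w₀, mem_filter.2 ⟨hw₀, hw₀v⟩⟩ (fun a ha => (mem_filter.1 ha).2)
    push Not at this
    obtain ⟨w, hw, u, hu, hwu⟩ := this
    rw [mem_filter] at hw
    rw [mem_sdiff, mem_filter, not_and, not_not] at hu
    exact ⟨w, hw.1, u, hu.1, hw.2, hu.2 hu.1, hwu⟩
  obtain ⟨w, hw, u, hu, hwv, huv, hwu⟩ := hedge
  -- the other side contains a neighbour of `v`
  have hfin : ∀ B ⊆ S, (S \ B).Nonempty → (∀ a ∈ B, ∀ b ∈ S \ B, ¬ r a b) → w ∈ B → u ∈ B →
      False := by
    intro B hB hBne hBS hwB huB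
    have hside := Sep.symm_side hr hB hBS
    by_cases hz : ∀ z ∈ S \ B, ¬ r z v
    · exact hnosep (S \ B) sdiff_subset hBne hz hside
    · push Not at hz
      obtain ⟨z, hz, hzv⟩ := hz
      exact h4 ⟨w, mem_insert_of_mem hw, u, mem_insert_of_mem hu, v, mem_insert_self _ _, z,
        mem_insert_of_mem (mem_sdiff.1 hz).1, hwu, huv, hr _ _ hzv, hwv, hBS w hwB z hz,
        hBS u huB z hz⟩
  by_cases hwA : w ∈ A
  · by_cases huA : u ∈ A
    · exact hfin A hAS hAne' hA hwA huA
    · exact hA w hwA u (mem_sdiff.2 ⟨hu, huA⟩) hwu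
  · by_cases huA : u ∈ A
    · exact hA u huA w (mem_sdiff.2 ⟨hw, hwA⟩) (hr _ _ hwu)
    · refine hfin (S \ A) sdiff_subset ?_ (Sep.symm_side hr hAS hA) (mem_sdiff.2 ⟨hw, hwA⟩)
        (mem_sdiff.2 ⟨hu, huA⟩)
      rw [Finset.sdiff_sdiff_eq_self hAS]
      exact hAne

theorem Sep.congr {β : Type} [DecidableEq β] {S : Finset β} {r r' : β → β → Prop}
    (h : ∀ a b, a ≠ b → r' a b → r a b) (hS : Sep S r) : Sep S r' := by
  obtain ⟨A, hAS, hAne, hAne', hA⟩ := hS
  refine ⟨A, hAS, hAne, hAne', fun a ha b hb hab => hA a ha b hb (h a b ?_ hab)⟩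
  rintro rfl
  exact (mem_sdiff.1 hb).2 ha

/-- **Seinsche's theorem**: a graph without path with four vertices is disconnected or its complement
is. -/
theorem cograph {β : Type} [DecidableEq β] (S : Finset β) : ∀ (r : β → β → Prop)
    (_ : ∀ a b, r a b → r b a) (_ : P4Free S r) (_ : 2 ≤ S.card),
    Sep S r ∨ Sep S (fun a b => a ≠ b ∧ ¬ r a b) := by
  classical
  induction S using Finset.induction_on with
  | empty => intro r _ _ h; simp at h
  | insert v S hv ih =>
    intro r hr h4 hcard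
    rw [card_insert_of_notMem hv] at hcard
    by_cases hS1 : S.card = 1
    · obtain ⟨u, rfl⟩ := card_eq_one.1 hS1
      have huv : v ≠ u := fun h => hv (mem_singleton.2 h)
      have hsd : insert v {u} \ {v} = ({u} : Finset β) := by
        ext z
        simp only [mem_sdiff, mem_insert, mem_singleton]
        constructor
        · rintro ⟨h1 | h1, h2⟩
          · exact absurd h1 h2
          · exact h1
        · rintro rfl
          exact ⟨Or.inr rfl, Ne.symm huv⟩
      by_cases hru : r v u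
      · right
        refine ⟨{v}, by simp, by simp, by rw [hsd]; simp, ?_⟩
        intro a ha b hb hab
        rw [hsd, mem_singleton] at hb
        rw [mem_singleton] at ha
        subst ha hb
        exact hab.2 hru
      · left
        refine ⟨{v}, by simp, by simp, by rw [hsd]; simp, ?_⟩
        intro a ha b hb hab
        rw [hsd, mem_singleton] at hb
        rw [mem_singleton] at ha
        subst ha hb
        exact hru hab
    have hS2 : 2 ≤ S.card := by omega
    have h4S : P4Free S r := by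
      rintro ⟨w, hw, u, hu, x, hx, z, hz, h⟩
      exact h4 ⟨w, mem_insert_of_mem hw, u, mem_insert_of_mem hu, x, mem_insert_of_mem hx, z,
        mem_insert_of_mem hz, h⟩
    rcases ih r hr h4S hS2 with h | h
    · exact key_step S v hv r hr h4 h
    · have h4' : P4Free (insert v S) (fun a b => a ≠ b ∧ ¬ r a b) := by
        rintro ⟨w, hw, u, hu, x, hx, z, hz, ⟨hwu, hwu'⟩, ⟨hux, hux'⟩, ⟨hxz, hxz'⟩, h1, h2, h3⟩
        rw [not_and, not_not] at h1 h2 h3
        have hwx : w ≠ x := by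
          rintro rfl
          exact hxz' (h2 hxz)
        have hwz : w ≠ z := by
          rintro rfl
          exact hxz' (hr _ _ (h1 hwx))
        have huz : u ≠ z := by
          rintro rfl
          exact hwu' (h2 hwu)
        exact h4 ⟨x, hx, w, hw, z, hz, u, hu, hr _ _ (h1 hwx), h2 hwz, hr _ _ (h3 huz), hxz',
          fun h => hux' (hr _ _ h), hwu'⟩
      rcases key_step S v hv _ (fun a b hab => ⟨hab.1.symm, fun h => hab.2 (hr _ _ h)⟩) h4' h
        with h | h
      · exact Or.inr h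
      · refine Or.inl (h.congr (fun a b hab hrab => ⟨hab, fun h => h.2 hrab⟩))

theorem NFree.sub {P Q : Type} [PartialOrder P] [PartialOrder Q] (e : P ↪o Q) (h : NFree Q) :
    NFree P := by
  rintro ⟨a, b, c, d, h1, h2, h3, h4, h5, h6, h7, h8, h9⟩
  refine h ⟨e a, e b, e c, e d, ?_⟩
  simp only [e.lt_iff_lt, e.le_iff_le]
  exact ⟨h1, h2, h3, h4, h5, h6, h7, h8, h9⟩

theorem decomp_unit : Decomp Unit := by
  have hc : (({0} : Finset (Fin 4)).card = 1 ∨ ({0} : Finset (Fin 4)).card = 2 ∨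
    ({0} : Finset (Fin 4)).card + 1 = 4) := Or.inl rfl
  refine Decomp.sub Unit (Layers 4 2) (OrderEmbedding.ofMapLEIff (fun _ => ⟨{0}, hc⟩) ?_)
    (Decomp.layers 4 2 le_rfl le_rfl)
  intro a b
  simp

theorem decomp_of_subsingleton (P : Type) [PartialOrder P] (h : ∀ x y : P, x = y) : Decomp P := by
  refine Decomp.sub P Unit (OrderEmbedding.ofMapLEIff (fun _ => ()) ?_) decomp_unit
  intro a b
  rw [h a b]
  simp

/-- **Finite posets without `N` are in the class.** -/
theorem decomp_of_nfree : ∀ (m : ℕ) (P : Type) [Fintype P] [PartialOrder P], Fintype.card P = m →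
    NFree P → Decomp P := by
  classical
  intro m
  induction m using Nat.strong_induction_on with
  | _ m ih =>
  intro P _ _ hm hN
  by_cases hcard : Fintype.card P ≤ 1
  · exact decomp_of_subsingleton P (fun x y => Fintype.card_le_one_iff.1 hcard x y)
  have h2 : 2 ≤ (Finset.univ : Finset P).card := by rw [card_univ]; omega
  have h4 : P4Free (Finset.univ : Finset P) (fun a b => a < b ∨ b < a) := by
    rintro ⟨w, -, u, -, v, -, z, -, hwu, huv, hvz, h1, h2, h3⟩
    rw [not_or] at h1 h2 h3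
    have hne1 : w ≠ v := by
      rintro rfl
      rcases hvz with h | h
      · exact h2.1 h
      · exact h2.2 h
    have hne2 : w ≠ z := by
      rintro rfl
      rcases hvz with h | h
      · exact h1.2 h
      · exact h1.1 h
    have hne3 : u ≠ z := by
      rintro rfl
      rcases hwu with h | h
      · exact h2.1 h
      · exact h2.2 h
    have hle : ∀ x y : P, x ≠ y → ¬ x < y → ¬ x ≤ y := fun x y hxy h h' => h (lt_of_le_of_ne h' hxy)
    rcases hwu with hwu | hwu
    · -- `w < u`, hence `u > v`, `v < z`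
      have hvu : v < u := by
        rcases huv with h | h
        · exact absurd (hwu.trans h) h1.1
        · exact h
      have hvz' : v < z := by
        rcases hvz with h | h
        · exact h
        · exact absurd (h.trans hvu) h3.2
      exact hN ⟨w, v, u, z, hwu, hvu, hvz', hle _ _ hne1 h1.1, hle _ _ hne1.symm h1.2,
        hle _ _ hne2 h2.1, hle _ _ hne2.symm h2.2, hle _ _ hne3 h3.1, hle _ _ hne3.symm h3.2⟩
    · -- `u < w`, hence `u < v`, `z < v`
      have huv' : u < v := by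
        rcases huv with h | h
        · exact h
        · exact absurd (h.trans hwu) h1.2
      have hzv : z < v := by
        rcases hvz with h | h
        · exact absurd (huv'.trans h) h3.1
        · exact h
      exact hN ⟨z, u, v, w, hzv, huv', hwu, hle _ _ hne3.symm h3.2, hle _ _ hne3 h3.1,
        hle _ _ hne2.symm h2.2, hle _ _ hne2 h2.1, hle _ _ hne1.symm h1.2, hle _ _ hne1 h1.1⟩
  -- decomposing
  have hsub : ∀ A : Finset P, (∃ x, x ∉ A) → Decomp {x // x ∈ A} := by
    intro A ⟨x, hx⟩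
    have hlt : Fintype.card {x // x ∈ A} < m := by
      rw [Fintype.card_coe, ← hm, ← card_univ]
      exact card_lt_card ((Finset.ssubset_iff_of_subset (subset_univ A)).2 ⟨x, mem_univ x, hx⟩)
    exact ih _ hlt {x // x ∈ A} rfl (hN.sub (OrderEmbedding.subtype (fun x => x ∈ A)))
  rcases cograph (Finset.univ : Finset P) (fun a b => a < b ∨ b < a) (fun a b h => h.symm) h4 h2
    with ⟨A, -, ⟨x, hx⟩, ⟨y, hy⟩, hA⟩ | ⟨A, -, ⟨x, hx⟩, ⟨y, hy⟩, hA⟩
  · -- disjoint union
    have hyA : y ∉ A := (mem_sdiff.1 hy).2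
    have hinc : ∀ a ∈ A, ∀ b ∉ A, ¬ a ≤ b ∧ ¬ b ≤ a := by
      intro a ha b hb
      have h := hA a ha b (mem_sdiff.2 ⟨mem_univ b, hb⟩)
      rw [not_or] at h
      have hne : a ≠ b := by
        rintro rfl
        exact hb ha
      exact ⟨fun h' => h.1 (lt_of_le_of_ne h' hne), fun h' => h.2 (lt_of_le_of_ne h' hne.symm)⟩
    refine Decomp.sub P ({x // x ∈ A} ⊕ {x // x ∈ Aᶜ}) (OrderEmbedding.ofMapLEIff
      (fun p => if h : p ∈ A then Sum.inl ⟨p, h⟩ else Sum.inr ⟨p, mem_compl.2 h⟩) ?_)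
      (Decomp.parallel _ _ (hsub A ⟨y, hyA⟩) (hsub Aᶜ ⟨x, fun h => mem_compl.1 h hx⟩))
    intro a b
    by_cases ha : a ∈ A <;> by_cases hb : b ∈ A
    · simp [ha, hb]
    · simp [ha, hb, (hinc a ha b hb).1]
    · simp [ha, hb, (hinc b hb a ha).2]
    · simp [ha, hb]
  · -- ordinal sum
    have hyA : y ∉ A := (mem_sdiff.1 hy).2
    have hcomp : ∀ a ∈ A, ∀ b ∉ A, a < b ∨ b < a := by
      intro a ha b hb
      have h := hA a ha b (mem_sdiff.2 ⟨mem_univ b, hb⟩)
      rw [not_and, not_not] at h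
      exact h (by rintro rfl; exact hb ha)
    -- wlog the side `B` of a minimal element
    have hfin : ∀ B : Finset P, (∀ a ∈ B, ∀ b ∉ B, a < b ∨ b < a) → (∃ b, b ∉ B) →
        (∃ x ∈ B, ∀ y, y ≤ x → y = x) → Decomp P := by
      intro B hB ⟨b₀, hb₀⟩ ⟨x₀, hx₀, hmin⟩
      let L : Finset P := univ.filter (fun l => ¬ ∃ b ∉ B, b ≤ l)
      have hL : ∀ l, l ∈ L ↔ ¬ ∃ b ∉ B, b ≤ l := fun l => by simp [L]
      have hxL : x₀ ∈ L := by
        rw [hL]
        rintro ⟨b, hb, hbx⟩
        rw [hmin b hbx] at hb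
        exact hb hx₀
      have hbL : b₀ ∉ L := fun h => (hL b₀).1 h ⟨b₀, hb₀, le_rfl⟩
      have hlt : ∀ l ∈ L, ∀ u ∉ L, l < u := by
        intro l hl u hu
        rw [hL] at hl hu
        rw [not_not] at hu
        obtain ⟨b, hb, hbu⟩ := hu
        have hlB : l ∈ B := by
          by_contra h
          exact hl ⟨l, h, le_rfl⟩
        rcases hB l hlB b hb with h | h
        · exact lt_of_lt_of_le h hbu
        · exact absurd ⟨b, hb, h.le⟩ hl
      refine Decomp.sub P ({x // x ∈ L} ⊕ₗ {x // x ∈ Lᶜ}) (OrderEmbedding.ofMapLEIff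
        (fun p => if h : p ∈ L then toLex (Sum.inl ⟨p, h⟩) else
          toLex (Sum.inr ⟨p, mem_compl.2 h⟩)) ?_)
        (Decomp.series _ _ (hsub L ⟨b₀, hbL⟩) (hsub Lᶜ ⟨x₀, fun h => mem_compl.1 h hxL⟩))
      intro a b
      by_cases ha : a ∈ L <;> by_cases hb : b ∈ L
      · simp only [ha, hb, dif_pos]
        rw [Sum.Lex.inl_le_inl_iff]
        exact Iff.rfl
      · simp only [ha, hb, dif_pos, dif_neg, not_false_eq_true]
        exact ⟨fun _ => (hlt a ha b hb).le, fun _ => Sum.Lex.inl_le_inr _ _⟩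
      · simp only [ha, hb, dif_pos, dif_neg, not_false_eq_true]
        exact ⟨fun h => absurd h Sum.Lex.not_inr_le_inl,
          fun h => absurd (hlt b hb a ha) (not_lt_of_ge h)⟩
      · simp only [ha, hb, dif_neg, not_false_eq_true]
        rw [Sum.Lex.inr_le_inr_iff]
        exact Iff.rfl
    -- a minimal element
    obtain ⟨x₀, -, hx₀⟩ := (Finset.univ : Finset P).exists_minimal ⟨x, mem_univ x⟩
    have hmin : ∀ y, y ≤ x₀ → y = x₀ := fun y hyx => le_antisymm hyx (hx₀ (mem_univ y) hyx)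
    by_cases hxA : x₀ ∈ A
    · exact hfin A hcomp ⟨y, hyA⟩ ⟨x₀, hxA, hmin⟩
    · refine hfin Aᶜ ?_ ⟨x, fun h => mem_compl.1 h hx⟩ ⟨x₀, mem_compl.2 hxA, hmin⟩
      intro a ha b hb
      rw [mem_compl] at ha hb
      rw [not_not] at hb
      exact (hcomp b hb a ha).symm

end Pool.Agent.H23.SP
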