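import Pool.Agent.H23.SP.Examples

/-!
# Posets in the class: ordinal sums of subposets of the layers
-/

set_option autoImplicit false

namespace Pool.Agent.H23.SP

open Finset

/-- **Ordinal sums of subposets of the layers are in the class**; the summands are the classes of `ρ`. -/
theorem decomp_of_ordinal_sum (m k : ℕ) (hk : 2 ≤ k) (hkm : k + 2 ≤ m) : ∀ (s : ℕ) (P : Type)
    [PartialOrder P] (ρ : P → ℕ) (φ : P → Finset (Fin m)), (∀ x, ρ x < s) →
    (∀ x y : P, ρ x < ρ y → x < y) → (∀ x y : P, ρ x = ρ y → (x ≤ y ↔ φ x ⊆ φ y)) →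
    (∀ x, (φ x).card = 1 ∨ (φ x).card = k ∨ (φ x).card + 1 = m) → Decomp P := by
  intro s
  induction s with
  | zero =>
    intro P _ ρ φ hs _ _ _
    exact decomp_of_subsingleton P (fun x _ => absurd (hs x) (Nat.not_lt_zero _))
  | succ s ih =>
    intro P _ ρ φ hs hρ hφ hφc
    have h1 : Decomp {x : P // ρ x < s} := ih _ (fun x => ρ x) (fun x => φ x) (fun x => x.2)
      (fun x y h => hρ x y h) (fun x y h => hφ x y h) (fun x => hφc x)
    refine Decomp.sub P ({x : P // ρ x < s} ⊕ₗ (Layers m k)) (OrderEmbedding.ofMapLEIff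
      (fun x => if h : ρ x < s then toLex (Sum.inl ⟨x, h⟩) else
        toLex (Sum.inr ⟨φ x, hφc x⟩)) ?_) (Decomp.series _ _ h1 (Decomp.layers m k hk hkm))
    intro x y
    by_cases hx : ρ x < s <;> by_cases hy : ρ y < s
    · simp only [hx, hy, dif_pos]
      rw [Sum.Lex.inl_le_inl_iff]
      exact Iff.rfl
    · simp only [hx, hy, dif_pos, dif_neg, not_false_eq_true]
      exact ⟨fun _ => (hρ x y (by omega)).le, fun _ => Sum.Lex.inl_le_inr _ _⟩
    · simp only [hx, hy, dif_pos, dif_neg, not_false_eq_true]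
      exact ⟨fun h => absurd h Sum.Lex.not_inr_le_inl,
        fun h => absurd (hρ y x (by omega)) (not_lt_of_ge h)⟩
    · simp only [hx, hy, dif_neg, not_false_eq_true]
      rw [Sum.Lex.inr_le_inr_iff, Subtype.mk_le_mk]
      have hx' := hs x
      have hy' := hs y
      exact (hφ x y (by omega)).symm

end Pool.Agent.H23.SP
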