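import Pool.Agent.H23.SP.Basic

/-!
# Families with few chains, II: ordinal sums
-/

set_option autoImplicit false

namespace Pool.Agent.H23.SP

open Finset

/-- **Ordinal sums.** -/
theorem Few.series {P Q : Type} [PartialOrder P] [PartialOrder Q] (hP : Few P) (hQ : Few Q) :
    Few (P ⊕ₗ Q) := by
  classical
  obtain ⟨C, e, hC, hP⟩ := hP
  obtain ⟨D, d, hD, hQ⟩ := hQ
  refine ⟨4 * (C * D), e + d + 2, ?_, ?_⟩
  · have := Nat.mul_pos hC hD
    omega
  intro α _ V F hV hF T
  have hFe : ∀ G ⊆ F, G.card ≤ 2 ^ V.card := fun G hG => card_family_le (fun v hv => hV v (hG hv))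
  set B₁ := C ^ V.card * (V.card + 2) ^ ((T + 2) ^ e) with hB₁
  set B₂ := D ^ V.card * (V.card + 2) ^ ((T + 2) ^ d) with hB₂
  have hB₁' : 1 ≤ B₁ := Nat.mul_pos (pow_pos hC _) (pow_pos (by omega) _)
  have hB₂' : 1 ≤ B₂ := Nat.mul_pos (pow_pos hD _) (pow_pos (by omega) _)
  let Low := F.filter (fun w => Free P (F.filter (fun v => v ⊆ w)))
  let High := F.filter (fun w => ¬ Free P (F.filter (fun v => v ⊆ w)))
  have h1 : (Chn Low T).card ≤ 1 + Low.card * B₁ := by
    refine card_Chn_le_top _ _ _ (fun a ha => ?_)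
    refine (card_le_card (Chn_mono (G := F.filter (fun v => v ⊆ a)) ?_)).trans
      (hP α V _ (fun v hv => hV v (mem_filter.1 hv).1) (mem_filter.1 ha).2 T)
    intro v hv
    rw [mem_filter, mem_filter] at hv
    exact mem_filter.2 ⟨hv.1.1, hv.2.subset⟩
  have h2 : (Chn High T).card ≤ 1 + High.card * B₂ := by
    refine card_Chn_le_bot _ _ _ (fun b hb => ?_)
    refine hQ α V _ (fun v hv => hV v (mem_filter.1 (mem_filter.1 hv).1).1) ?_ T
    rintro ⟨g, hg⟩
    have hb2 := (mem_filter.1 hb).2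
    rw [Free, not_not] at hb2
    obtain ⟨f, hf⟩ := hb2
    apply hF
    have hf' : ∀ p, f p ∈ F ∧ f p ⊆ b := fun p => mem_filter.1 (hf p)
    have hg' : ∀ q, g q ∈ F ∧ b ⊂ g q := fun q =>
      ⟨(mem_filter.1 (mem_filter.1 (hg q)).1).1, (mem_filter.1 (hg q)).2⟩
    refine ⟨OrderEmbedding.ofMapLEIff (fun x => Sum.elim f g (ofLex x)) ?_, ?_⟩
    · intro x y
      induction x using Lex.rec with
      | _ x =>
      induction y using Lex.rec with
      | _ y =>
      rcases x with p | q <;> rcases y with p' | q'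
      · simp only [ofLex_toLex, Sum.elim_inl]
        exact (f.le_iff_le (a := p) (b := p')).trans Sum.Lex.inl_le_inl_iff.symm
      · simp only [ofLex_toLex, Sum.elim_inl, Sum.elim_inr]
        exact ⟨fun _ => Sum.Lex.inl_le_inr _ _, fun _ => (hf' p).2.trans (hg' q').2.subset⟩
      · simp only [ofLex_toLex, Sum.elim_inl, Sum.elim_inr]
        constructor
        · intro h
          exact absurd (h.trans (hf' p').2) (not_le_of_gt (hg' q).2)
        · intro h
          exact absurd h Sum.Lex.not_inr_le_inl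
      · simp only [ofLex_toLex, Sum.elim_inr]
        exact (g.le_iff_le (a := q) (b := q')).trans Sum.Lex.inr_le_inr_iff.symm
    · intro x
      induction x using Lex.rec with
      | _ x =>
      rcases x with p | q
      · exact (hf' p).1
      · exact (hg' q).1
  have h3 : (Chn F T).card ≤ (Chn Low T).card * (Chn High T).card := by
    rw [← card_product]
    refine Finset.card_le_card_of_injOn
      (fun 𝒞 => (𝒞.filter (fun w => Free P (F.filter (fun v => v ⊆ w))),
        𝒞.filter (fun w => ¬ Free P (F.filter (fun v => v ⊆ w))))) ?_ ?_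
    · intro 𝒞 h𝒞
      rw [mem_coe, mem_Chn] at h𝒞
      rw [mem_coe, mem_product, mem_Chn, mem_Chn]
      refine ⟨⟨filter_subset_filter _ h𝒞.1, h𝒞.2.1.mono ?_,
        (card_le_card (filter_subset _ _)).trans h𝒞.2.2⟩,
        ⟨filter_subset_filter _ h𝒞.1, h𝒞.2.1.mono ?_,
        (card_le_card (filter_subset _ _)).trans h𝒞.2.2⟩⟩
      · exact_mod_cast filter_subset _ 𝒞
      · exact_mod_cast filter_subset _ 𝒞
    · intro 𝒞 _ 𝒟 _ heq
      simp only [Prod.mk.injEq] at heq
      rw [← filter_union_filter_not_eq (fun w => Free P (F.filter (fun v => v ⊆ w))) 𝒞,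
        ← filter_union_filter_not_eq (fun w => Free P (F.filter (fun v => v ⊆ w))) 𝒟, heq.1, heq.2]
  have h4 : ∀ (G : Finset (Finset α)) (B : ℕ), G ⊆ F → 1 ≤ B →
      1 + G.card * B ≤ 2 * (2 ^ V.card * B) := by
    intro G B hG hB
    have h5 := Nat.mul_le_mul_right B (hFe G hG)
    have h6 : 1 ≤ 2 ^ V.card * B := Nat.mul_pos (by positivity) hB
    omega
  set n := V.card with hn
  calc (Chn F T).card ≤ (Chn Low T).card * (Chn High T).card := h3
    _ ≤ (2 * (2 ^ n * B₁)) * (2 * (2 ^ n * B₂)) :=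
        Nat.mul_le_mul (h1.trans (h4 _ _ (filter_subset _ _) hB₁'))
          (h2.trans (h4 _ _ (filter_subset _ _) hB₂'))
    _ = (4 * (C * D)) ^ n * (2 ^ 2 * ((n + 2) ^ ((T + 2) ^ e) * (n + 2) ^ ((T + 2) ^ d))) := by
        rw [hB₁, hB₂, mul_pow, mul_pow, show (4 : ℕ) = 2 * 2 by norm_num, mul_pow]
        ring
    _ ≤ (4 * (C * D)) ^ n * ((n + 2) ^ 2 * ((n + 2) ^ ((T + 2) ^ e) * (n + 2) ^ ((T + 2) ^ d))) := by
        gcongr
        omega
    _ = (4 * (C * D)) ^ n * (n + 2) ^ (2 + ((T + 2) ^ e + (T + 2) ^ d)) := by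
        rw [pow_add (n + 2) 2, pow_add (n + 2) ((T + 2) ^ e)]
    _ ≤ (4 * (C * D)) ^ n * (n + 2) ^ ((T + 2) ^ (e + d + 2)) := by
        refine Nat.mul_le_mul_left _ (Nat.pow_le_pow_right (by omega) ?_)
        have e1 : (T + 2) ^ e ≤ (T + 2) ^ (e + d) := Nat.pow_le_pow_right (by omega) (by omega)
        have e2 : (T + 2) ^ d ≤ (T + 2) ^ (e + d) := Nat.pow_le_pow_right (by omega) (by omega)
        have e3 : 1 ≤ (T + 2) ^ (e + d) := Nat.one_le_pow _ _ (by omega)
        have e4 : 2 ^ 2 ≤ (T + 2) ^ 2 := Nat.pow_le_pow_left (by omega) 2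
        rw [pow_add (T + 2) (e + d) 2]
        nlinarith

end Pool.Agent.H23.SP
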