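import Pool.Agent.H23.SP.Coarse
import Pool.Agent.H23.SP.Series

/-!
# Families with few chains, IV: disjoint unions
-/

set_option autoImplicit false

namespace Pool.Agent.H23.SP

open Finset

variable {α : Type} [DecidableEq α]

/-- the members containing `x` but not `y` -/
def Bxy (F : Finset (Finset α)) (x y : α) : Finset (Finset α) :=
  F.filter (fun v => x ∈ v ∧ y ∉ v)

theorem semi {P : Type} [PartialOrder P] {F : Finset (Finset α)} (hF : Free (P ⊕ P) F) (x y : α) :
    Free P (Bxy F x y) ∨ Free P (Bxy F y x) := by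
  by_contra hcon
  rw [not_or, Free, Free, not_not, not_not] at hcon
  obtain ⟨⟨f, hf⟩, ⟨g, hg⟩⟩ := hcon
  apply hF
  have hf' : ∀ p, f p ∈ F ∧ x ∈ f p ∧ y ∉ f p := fun p => mem_filter.1 (hf p)
  have hg' : ∀ p, g p ∈ F ∧ y ∈ g p ∧ x ∉ g p := fun p => mem_filter.1 (hg p)
  refine ⟨OrderEmbedding.ofMapLEIff (Sum.elim f g) ?_, ?_⟩
  · rintro (p | p) (q | q)
    · simp only [Sum.elim_inl, Sum.inl_le_inl_iff]
      exact f.le_iff_le
    · simp only [Sum.elim_inl, Sum.elim_inr, Sum.not_inl_le_inr, iff_false]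
      exact fun h => (hg' q).2.2 (h (hf' p).2.1)
    · simp only [Sum.elim_inl, Sum.elim_inr, Sum.not_inr_le_inl, iff_false]
      exact fun h => (hf' q).2.2 (h (hg' p).2.1)
    · simp only [Sum.elim_inr, Sum.inr_le_inr_iff]
      exact g.le_iff_le
  · rintro (p | p)
    · exact (hf' p).1
    · exact (hg' p).1

open Classical in
/-- the members of `𝒞` below `D` and above all members of `E` smaller than `D` -/
noncomputable def portion (𝒞 E : Finset (Finset α)) (D : Finset α) : Finset (Finset α) :=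
  𝒞.filter (fun M => M ⊆ D ∧ ∀ D' ∈ E, D' ⊂ D → D' ⊂ M)

/-- a set of cuts of the chain `𝒞` -/
structure IsCut (V : Finset α) (R : α → α → Prop) (𝒞 E : Finset (Finset α)) : Prop where
  sub : E ⊆ 𝒞
  cof : ∀ M ∈ 𝒞, ∃ D ∈ E, M ⊆ D
  coarse : Coarse V R E
  port : ∀ D ∈ E, portion 𝒞 E D = {D} ∨
    ∃ x ∈ V, ∃ y ∈ V, R x y ∧ ∀ M ∈ portion 𝒞 E D, x ∈ M ∧ y ∉ M

theorem exists_cut (V : Finset α) (R : α → α → Prop) : ∀ (m : ℕ) (𝒞 : Finset (Finset α)),
    𝒞.card = m → (∀ v ∈ 𝒞, v ⊆ V) → IsChain (· ⊆ ·) (𝒞 : Set (Finset α)) →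
    ∃ E, IsCut V R 𝒞 E := by
  classical
  intro m
  induction m using Nat.strong_induction_on with
  | _ m ih =>
  intro 𝒞 hm hV hc
  rcases 𝒞.eq_empty_or_nonempty with rfl | hne
  · refine ⟨∅, subset_rfl, fun M hM => absurd hM (notMem_empty M), ?_, fun D hD =>
      absurd hD (notMem_empty D)⟩
    intro D' hD'
    exact absurd hD' (notMem_empty D')
  obtain ⟨D, hD, htop⟩ := exists_top hc hne
  -- a smaller chain `𝒞'` and a description of the rest
  have hstep : ∃ 𝒞' ⊆ 𝒞, 𝒞'.card < 𝒞.card ∧ D ∉ 𝒞' ∧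
      (∀ M ∈ 𝒞', ∀ x' ∈ M, ∀ y ∈ V, y ∉ D → ¬ R x' y) ∧
      ((∀ M ∈ 𝒞, M ∉ 𝒞' → M = D) ∨ ∃ x ∈ V, ∃ y ∈ V, R x y ∧ ∀ M ∈ 𝒞, M ∉ 𝒞' → x ∈ M ∧ y ∉ M) := by
    let Pr : Finset (α × α) := (V ×ˢ V).filter (fun p => p.1 ∈ D ∧ p.2 ∉ D ∧ R p.1 p.2)
    rcases Pr.eq_empty_or_nonempty with h0 | hne'
    · refine ⟨𝒞.erase D, erase_subset _ _, card_lt_card (erase_ssubset hD), notMem_erase D 𝒞,
        ?_, Or.inl ?_⟩
      · intro M hM x' hx' y hy hyD hRxy
        have hMD := htop M (mem_erase.1 hM).2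
        have : ((x', y) : α × α) ∈ Pr := mem_filter.2 ⟨mem_product.2 ⟨hV D hD (hMD hx'), hy⟩,
          hMD hx', hyD, hRxy⟩
        rw [h0] at this
        exact notMem_empty _ this
      · intro M hM hM'
        by_contra hMD
        exact hM' (mem_erase.2 ⟨hMD, hM⟩)
    · obtain ⟨⟨x, y⟩, hxy, hmax⟩ := Finset.exists_max_image Pr
        (fun p => (𝒞.filter (fun M => p.1 ∈ M)).card) hne'
      have hxy' := mem_filter.1 hxy
      simp only [mem_product] at hxy'
      obtain ⟨⟨hxV, hyV⟩, hxD, hyD, hRxy⟩ := hxy'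
      refine ⟨𝒞.filter (fun M => x ∉ M), filter_subset _ _, ?_, ?_, ?_, Or.inr ⟨x, hxV, y, hyV,
        hRxy, ?_⟩⟩
      · refine card_lt_card ?_
        rw [Finset.ssubset_iff_of_subset (filter_subset _ _)]
        exact ⟨D, hD, fun h => (mem_filter.1 h).2 hxD⟩
      · exact fun h => (mem_filter.1 h).2 hxD
      · intro M hM x' hx' y' hy' hy'D hR'
        have hM' := mem_filter.1 hM
        have hMD := htop M hM'.1
        have hmem : ((x', y') : α × α) ∈ Pr := mem_filter.2 ⟨mem_product.2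
          ⟨hV D hD (hMD hx'), hy'⟩, hMD hx', hy'D, hR'⟩
        have h1 := hmax _ hmem
        simp only at h1
        refine absurd h1 (not_le.2 (card_lt_card ?_))
        rw [Finset.ssubset_iff_of_subset]
        · exact ⟨M, mem_filter.2 ⟨hM'.1, hx'⟩, fun h => hM'.2 (mem_filter.1 h).2⟩
        · intro M₂ hM₂
          rw [mem_filter] at hM₂ ⊢
          refine ⟨hM₂.1, ?_⟩
          rcases hc.total hM'.1 hM₂.1 with h | h
          · exact h hx'
          · exact absurd (h hM₂.2) hM'.2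
      · intro M hM hM'
        have hxM : x ∈ M := by
          by_contra h
          exact hM' (mem_filter.2 ⟨hM, h⟩)
        exact ⟨hxM, fun h => hyD (htop M hM h)⟩
  obtain ⟨𝒞', h𝒞', hlt, hD', hco, hrest⟩ := hstep
  obtain ⟨E', hE'⟩ := ih 𝒞'.card (by omega) 𝒞' rfl (fun v hv => hV v (h𝒞' hv))
    (hc.mono (by exact_mod_cast h𝒞'))
  have hE'D : ∀ D' ∈ E', D' ⊂ D := by
    intro D' hD'E
    refine (htop D' (h𝒞' (hE'.sub hD'E))).ssubset_of_ne ?_
    rintro rfl
    exact hD' (hE'.sub hD'E)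
  refine ⟨insert D E', ?_, ?_, ?_, ?_⟩
  · intro D₂ h
    rw [mem_insert] at h
    rcases h with rfl | h
    · exact hD
    · exact h𝒞' (hE'.sub h)
  · intro M hM
    exact ⟨D, mem_insert_self _ _, htop M hM⟩
  · intro D₁ h1 D₂ h2 hlt' x hx y hy hyD
    rw [mem_insert] at h1 h2
    rcases h2 with rfl | h2
    · rcases h1 with rfl | h1
      · exact absurd hlt' (ssubset_irrefl _)
      · exact hco D₁ (hE'.sub h1) x hx y hy hyD
    · rcases h1 with rfl | h1
      · exact absurd (hlt'.trans (hE'D D₂ h2)) (ssubset_irrefl _)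
      · exact hE'.coarse D₁ h1 D₂ h2 hlt' x hx y hy hyD
  · intro D₂ h2
    rw [mem_insert] at h2
    rcases h2 with rfl | h2
    · -- the top portion
      have hnot : ∀ M ∈ portion 𝒞 (insert D₂ E') D₂, M ∈ 𝒞 ∧ M ∉ 𝒞' := by
        intro M hM
        rw [portion, mem_filter] at hM
        refine ⟨hM.1, fun hM' => ?_⟩
        obtain ⟨D₃, hD₃, hMD₃⟩ := hE'.cof M hM'
        have := hM.2.2 D₃ (mem_insert_of_mem hD₃) (hE'D D₃ hD₃)
        exact absurd (this.trans_le hMD₃) (ssubset_irrefl _)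
      have hself : D₂ ∈ portion 𝒞 (insert D₂ E') D₂ := by
        rw [portion, mem_filter]
        exact ⟨hD, subset_rfl, fun D' _ h => h⟩
      rcases hrest with h | ⟨x, hx, y, hy, hR, h⟩
      · left
        refine (Finset.eq_singleton_iff_unique_mem).2 ⟨hself, fun M hM => ?_⟩
        exact h M (hnot M hM).1 (hnot M hM).2
      · right
        exact ⟨x, hx, y, hy, hR, fun M hM => h M (hnot M hM).1 (hnot M hM).2⟩
    · have hport : portion 𝒞 (insert D E') D₂ = portion 𝒞' E' D₂ := by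
        ext M
        rw [portion, portion, mem_filter, mem_filter]
        constructor
        · rintro ⟨hM, hMD, hall⟩
          refine ⟨?_, hMD, fun D' hD'E => hall D' (mem_insert_of_mem hD'E)⟩
          by_contra hM'
          rcases hrest with h | ⟨x, hx, y, hy, hR, h⟩
          · have := h M hM hM'
            rw [this] at hMD
            exact absurd ((hE'D D₂ h2).trans_le hMD) (ssubset_irrefl _)
          · obtain ⟨hxM, hyM⟩ := h M hM hM'
            have hxD₂ : x ∈ D₂ := hMD hxM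
            have hyD : y ∉ D := by
              intro hyD
              exact (h D hD hD').2 hyD
            exact hco D₂ (hE'.sub h2) x hxD₂ y hy hyD hR
        · rintro ⟨hM, hMD, hall⟩
          refine ⟨h𝒞' hM, hMD, fun D' hD'E hlt' => ?_⟩
          rw [mem_insert] at hD'E
          rcases hD'E with rfl | hD'E
          · exact absurd (hlt'.trans (hE'D D₂ h2)) (ssubset_irrefl _)
          · exact hall D' hD'E hlt'
      rw [hport]
      exact hE'.port D₂ h2

/-- a chain is the union of its portions -/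
theorem biUnion_portion {V : Finset α} {R : α → α → Prop} {𝒞 E : Finset (Finset α)}
    (hc : IsChain (· ⊆ ·) (𝒞 : Set (Finset α))) (h : IsCut V R 𝒞 E) :
    E.biUnion (portion 𝒞 E) = 𝒞 := by
  classical
  ext M
  rw [mem_biUnion]
  constructor
  · rintro ⟨D, _, hM⟩
    exact (mem_filter.1 hM).1
  · intro hM
    obtain ⟨D₀, hD₀, hMD₀⟩ := h.cof M hM
    have hne : (E.filter (fun D => M ⊆ D)).Nonempty := ⟨D₀, mem_filter.2 ⟨hD₀, hMD₀⟩⟩
    have hcE : IsChain (· ⊆ ·) ((E.filter (fun D => M ⊆ D) : Finset (Finset α)) : Set (Finset α)) :=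
      hc.mono (by exact_mod_cast (filter_subset _ E).trans h.sub)
    obtain ⟨D, hD, hmin⟩ := exists_bot hcE hne
    rw [mem_filter] at hD
    refine ⟨D, hD.1, ?_⟩
    rw [portion, mem_filter]
    refine ⟨hM, hD.2, fun D' hD' hlt => ?_⟩
    rcases hc.total hM (h.sub hD') with h1 | h1
    · exact absurd (hlt.trans_le (hmin D' (mem_filter.2 ⟨hD', h1⟩))) (ssubset_irrefl _)
    · refine h1.ssubset_of_ne ?_
      rintro rfl
      exact absurd (hlt.trans_le (hmin D' (mem_filter.2 ⟨hD', subset_rfl⟩))) (ssubset_irrefl _)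

/-- the union of the members of `E` below `D` -/
def below (E : Finset (Finset α)) (D : Finset α) : Finset α :=
  (E.filter (fun D' => D' ⊂ D)).sup id

theorem below_subset (E : Finset (Finset α)) (D : Finset α) : below E D ⊆ D := by
  unfold below
  refine Finset.sup_le ?_
  intro D' hD'
  exact (mem_filter.1 hD').2.subset

theorem sum_card_sdiff_le {V : Finset α} {E : Finset (Finset α)} (hV : ∀ D ∈ E, D ⊆ V)
    (hc : IsChain (· ⊆ ·) (E : Set (Finset α))) :
    ∑ D ∈ E, (D \ below E D).card ≤ V.card := by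
  classical
  rw [← Finset.card_biUnion]
  · refine card_le_card ?_
    intro z hz
    rw [mem_biUnion] at hz
    obtain ⟨D, hD, hz⟩ := hz
    exact hV D hD (mem_sdiff.1 hz).1
  · have key : ∀ D ∈ E, ∀ D' ∈ E, D' ⊂ D → Disjoint (D \ below E D) (D' \ below E D') := by
      intro D _ D' hD' hlt
      rw [Finset.disjoint_left]
      intro z hz hz'
      refine (mem_sdiff.1 hz).2 ?_
      have : D' ≤ below E D := Finset.le_sup (f := id) (mem_filter.2 ⟨hD', hlt⟩)
      exact this (mem_sdiff.1 hz').1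
    intro D hD D' hD' hne
    rcases hc.total hD hD' with h | h
    · exact (key D' hD' D hD (h.ssubset_of_ne hne)).symm
    · exact key D hD D' hD' (h.ssubset_of_ne (Ne.symm hne))

end Pool.Agent.H23.SP
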